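import Pool.Agent.Work.MP_73176e_al.Defs

set_option autoImplicit false

namespace Pool.Agent.BinFin

/-- the space of the base block -/
abbrev BS0 (K : Type) : Type := (Fin 1 → K) × (Fin 1 → K) × (Fin 1 → K)

/-- the letter `a` on the base block -/
def aB0 (K : Type) [Field K] : Module.End K (BS0 K) where
  toFun v := (0, v.1, v.2.1)
  map_add' v v' := by simp
  map_smul' c v := by simp

/-- the letters on the base block -/
def opB0 (K : Type) [Field K] (p : ℕ) : Ltr p → Module.End K (BS0 K)
  | .a => aB0 K
  | _ => 0

/-- the barriers of the base block -/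
def prB0 (K : Type) [Field K] (z : ℕ) : Module.End K (BS0 K) := if z = 0 then 0 else 1

/-- the base block -/
def baseBlk (K : Type) [Field K] (p : ℕ) : Blk K p where
  w := 1
  B := BS0 K
  op := opB0 K p
  e := LinearMap.inl K _ _
  f := LinearMap.snd K _ _ ∘ₗ LinearMap.snd K _ _
  pr := prB0 K

/-- strictly triangular endomorphisms -/
def Str0 {K : Type} [Field K] (T : Module.End K (BS0 K)) : Prop :=
  (∀ v, (T v).1 = 0) ∧ (∀ v, v.1 = 0 → (T v).2.1 = 0) ∧ (∀ v, v.1 = 0 → v.2.1 = 0 → T v = 0)

theorem str0_zero {K : Type} [Field K] : Str0 (0 : Module.End K (BS0 K)) :=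
  ⟨fun _ => rfl, fun _ _ => rfl, fun _ _ _ => rfl⟩

theorem str0_add {K : Type} [Field K] {S T : Module.End K (BS0 K)} (hS : Str0 S) (hT : Str0 T) :
    Str0 (S + T) := by
  refine ⟨fun v => ?_, fun v h => ?_, fun v h h' => ?_⟩
  · rw [LinearMap.add_apply, Prod.fst_add, hS.1, hT.1, add_zero]
  · rw [LinearMap.add_apply, Prod.snd_add, Prod.fst_add, hS.2.1 v h, hT.2.1 v h, add_zero]
  · rw [LinearMap.add_apply, hS.2.2 v h h', hT.2.2 v h h', add_zero]

theorem str0_mul {K : Type} [Field K] {S T : Module.End K (BS0 K)} (hS : Str0 S) (hT : Str0 T) :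
    Str0 (S * T) := by
  refine ⟨fun v => ?_, fun v h => ?_, fun v h h' => ?_⟩
  · rw [Module.End.mul_apply]; exact hS.1 _
  · rw [Module.End.mul_apply]; exact hS.2.1 _ (hT.1 v)
  · rw [Module.End.mul_apply, hT.2.2 v h h', map_zero]

theorem str0_mul3 {K : Type} [Field K] {S T U : Module.End K (BS0 K)} (hS : Str0 S) (hT : Str0 T)
    (hU : Str0 U) : S * (T * U) = 0 := by
  refine LinearMap.ext fun v => ?_
  rw [Module.End.mul_apply, Module.End.mul_apply]
  exact hS.2.2 _ (hT.1 _) (hT.2.1 _ (hU.1 _))

theorem str0_a (K : Type) [Field K] : Str0 (aB0 K) := by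
  refine ⟨fun v => rfl, fun v h => h, fun v h h' => ?_⟩
  show ((0 : Fin 1 → K), v.1, v.2.1) = 0
  rw [h, h']
  rfl

theorem str0_op (K : Type) [Field K] (p : ℕ) (l : Ltr p) : Str0 (opB0 K p l) := by
  cases l with
  | a => exact str0_a K
  | D i => exact str0_zero
  | U i => exact str0_zero

theorem str0_word (K : Type) [Field K] (p : ℕ) (w : Wd p) (hw : w ≠ []) :
    Str0 (evW (opB0 K p) w) := by
  induction w with
  | nil => exact absurd rfl hw
  | cons l w ih =>
    have e1 : evW (opB0 K p) (l :: w) = opB0 K p l * evW (opB0 K p) w := by simp [evW]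
    rw [e1]
    by_cases h : w = []
    · subst h
      have e2 : evW (opB0 K p) ([] : Wd p) = 1 := by simp [evW]
      rw [e2, mul_one]
      exact str0_op K p l
    · exact str0_mul (str0_op K p l) (ih h)

theorem str0_pol (K : Type) [Field K] (p : ℕ) (t : Pol p) (ht : CF t) :
    Str0 (evP (opB0 K p) t) := by
  induction t with
  | nil =>
    have e2 : evP (opB0 K p) ([] : Pol p) = 0 := by simp [evP]
    rw [e2]
    exact str0_zero
  | cons w t ih =>
    have e1 : evP (opB0 K p) (w :: t) = evW (opB0 K p) w + evP (opB0 K p) t := by simp [evP]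
    rw [e1]
    exact str0_add (str0_word K p w (ht w (by simp)))
      (ih (fun s hs => ht s (List.mem_cons_of_mem _ hs)))

theorem base_nil (K : Type) [Field K] (p : ℕ) (ts : List (Pol p)) (hts : ∀ t ∈ ts, CF t)
    (hl : 3 ≤ ts.length) : (ts.map (evP (opB0 K p))).prod = 0 := by
  match ts, hl, hts with
  | t1 :: t2 :: t3 :: r, _, hts =>
    have h1 := str0_pol K p t1 (hts t1 (by simp))
    have h2 := str0_pol K p t2 (hts t2 (by simp))
    have h3 := str0_pol K p t3 (hts t3 (by simp))
    have h4 := str0_mul3 h1 h2 h3
    rw [List.map_cons, List.map_cons, List.map_cons, List.prod_cons, List.prod_cons, List.prod_cons,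
      ← mul_assoc (evP (opB0 K p) t2), ← mul_assoc (evP (opB0 K p) t1), h4, zero_mul]

theorem base_Mb (n : ℕ) : 5 ≤ Mb (n + 1) := by
  have h : ∀ n, 1 ≤ Mb n := by
    intro n
    cases n with
    | zero => exact le_refl 1
    | succ k => show 1 ≤ 2 * Mb k + 3; omega
  show 5 ≤ 2 * Mb n + 3
  have := h n
  omega

/-- Module BASE. A good block of height 1. -/
theorem base_part (K : Type) [Field K] (p : ℕ) : ∃ b : Blk K p, Good 1 b := by
  refine ⟨baseBlk K p, ?_⟩
  have hpr0 : (baseBlk K p).pr 0 = 0 := by
    show prB0 K 0 = 0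
    simp [prB0]
  have hpr1 : ∀ z, 1 ≤ z → (baseBlk K p).pr z = 1 := by
    intro z hz
    show prB0 K z = 1
    unfold prB0
    rw [if_neg (by omega)]
  have hU : ∀ i, (baseBlk K p).op (.U i) = 0 := fun i => rfl
  refine
    { wpos := le_refl 1
      faae := fun x => rfl
      Uaae := fun i x => by rw [hU]; rfl
      faaD := fun i x => rfl
      fpr := fun z hz x => by
        have : z = 0 := by omega
        subst this
        rw [hpr0]; rfl
      prae := fun z hz x => by
        have : z = 0 := by omega
        subst this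
        rw [hpr0]; rfl
      pr0 := hpr0
      prtop := hpr1
      prmul := fun z z' => by
        rcases Nat.eq_zero_or_pos z with h | h
        · subst h; rw [hpr0, Nat.zero_min, hpr0, zero_mul]
        · rcases Nat.eq_zero_or_pos z' with h' | h'
          · subst h'; rw [hpr0, Nat.min_zero, hpr0, mul_zero]
          · rw [hpr1 z h, hpr1 z' h', hpr1 _ (by omega), one_mul]
      comm := fun z t _ => by
        rcases Nat.eq_zero_or_pos z with h | h
        · subst h; rw [hpr0, mul_zero, zero_mul]
        · rw [hpr1 z h, mul_one, one_mul]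
      rel := fun x => by
        rw [hpr1 1 (le_refl 1)]
        have : x - (1 : Module.End K (baseBlk K p).B) x = 0 := by
          rw [Module.End.one_apply, sub_self]
        rw [this]
        simp
      grow := fun l z x => by
        rw [hpr1 (z + 1) (by omega)]; rfl
      nil := fun z ts hts hl => by
        rcases Nat.eq_zero_or_pos z with h | h
        · subst h
          rw [hpr0]
          simp only [sub_zero, one_mul]
          refine base_nil K p ts hts ?_
          have := base_Mb 0
          have h2 : Mb (1 - 0) = Mb (0 + 1) := rfl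
          rw [h2] at hl
          omega
        · rw [hpr1 z h]
          have h3 : 1 - z = 0 := by omega
          rw [h3] at hl
          cases ts with
          | nil => exact absurd hl (by show ¬ (1 ≤ 0); omega)
          | cons t ts => rw [List.map_cons, List.prod_cons, sub_self, zero_mul, zero_mul]
      dim := by
        rw [Finset.sum_range_succ, Finset.sum_range_succ, Finset.sum_range_zero, hpr0,
          hpr1 1 (le_refl 1)]
        have e1 : LinearMap.range (0 : Module.End K (baseBlk K p).B) = ⊥ := LinearMap.range_zero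
        have e2 : LinearMap.range (1 : Module.End K (baseBlk K p).B) = ⊤ := LinearMap.range_id
        rw [e1, e2, finrank_bot, finrank_top]
        have e3 : Module.finrank K (baseBlk K p).B = 3 := by
          show Module.finrank K (BS0 K) = 3
          simp [Module.finrank_prod]
        rw [e3]
        show 0 + 0 + 3 ≤ 8 * 1
        omega
      locnil := fun n hn ts hts hl => by
        refine base_nil K p ts (fun t ht => hn.2 t (hts t ht)) ?_
        obtain ⟨m, hm⟩ : ∃ m, 2 ^ (n + 1) = m + 1 :=
          ⟨2 ^ (n + 1) - 1, by have : 0 < 2 ^ (n + 1) := by positivity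
                               omega⟩
        rw [hm] at hl
        have := base_Mb m
        omega }

end Pool.Agent.BinFin
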