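import Pool.Agent.Work.MP_73176e_al.Defs

set_option autoImplicit false

namespace Pool.Agent.BinFin

section RingPart

variable {K : Type} [Field K] {p : ℕ}

/-- the submodule of vectors below some barrier -/
private def Nsub (b : ℕ → Blk K p) (hb : ∀ h, Good (h + 1) (b h)) :
    Submodule K (∀ h, (b h).B) where
  carrier := {v | ∃ z, ∀ h, (b h).pr z (v h) = v h}
  zero_mem' := ⟨0, fun h => by simp⟩
  add_mem' := by
    rintro v w ⟨z, hz⟩ ⟨z', hz'⟩
    refine ⟨max z z', fun h => ?_⟩
    have h1 : (b h).pr (max z z') (v h) = v h := by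
      have := congrArg (fun T => T (v h)) ((hb h).prmul (max z z') z)
      simp only [Module.End.mul_apply, hz h] at this
      rw [this, min_eq_right (le_max_left _ _), hz h]
    have h2 : (b h).pr (max z z') (w h) = w h := by
      have := congrArg (fun T => T (w h)) ((hb h).prmul (max z z') z')
      simp only [Module.End.mul_apply, hz' h] at this
      rw [this, min_eq_right (le_max_right _ _), hz' h]
    rw [Pi.add_apply, map_add, h1, h2]
  smul_mem' := by
    rintro c v ⟨z, hz⟩
    exact ⟨z, fun h => by rw [Pi.smul_apply, map_smul, hz h]⟩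

/-- a letter acting on all blocks at once -/
private def opM (b : ℕ → Blk K p) (l : Ltr p) : (∀ h, (b h).B) →ₗ[K] (∀ h, (b h).B) :=
  LinearMap.pi fun h => (b h).op l ∘ₗ LinearMap.proj h

private theorem opM_stab (b : ℕ → Blk K p) (hb : ∀ h, Good (h + 1) (b h)) (l : Ltr p) :
    Nsub b hb ≤ (Nsub b hb).comap (opM b l) := by
  rintro v ⟨z, hz⟩
  refine ⟨z + 1, fun h => ?_⟩
  have := (hb h).grow l z (v h)
  rw [hz h] at this
  exact this

private def evQ (b : ℕ → Blk K p) (hb : ∀ h, Good (h + 1) (b h)) (l : Ltr p) :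
    Module.End K ((∀ h, (b h).B) ⧸ Nsub b hb) :=
  (Nsub b hb).mapQ (Nsub b hb) (opM b l) (opM_stab b hb l)

private theorem evQ_mk (b : ℕ → Blk K p) (hb : ∀ h, Good (h + 1) (b h)) (l : Ltr p)
    (v : ∀ h, (b h).B) :
    evQ b hb l (Submodule.Quotient.mk v) =
      Submodule.Quotient.mk (fun h => (b h).op l (v h)) := rfl

private theorem evW_mk (b : ℕ → Blk K p) (hb : ∀ h, Good (h + 1) (b h)) (w : Wd p)
    (v : ∀ h, (b h).B) :
    evW (evQ b hb) w (Submodule.Quotient.mk v) =
      Submodule.Quotient.mk (fun h => evW (b h).op w (v h)) := by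
  induction w generalizing v with
  | nil => simp [evW]
  | cons l w ih =>
    simp only [evW, List.map_cons, List.prod_cons, Module.End.mul_apply] at ih ⊢
    rw [ih, evQ_mk]

private theorem evP_mk (b : ℕ → Blk K p) (hb : ∀ h, Good (h + 1) (b h)) (t : Pol p)
    (v : ∀ h, (b h).B) :
    evP (evQ b hb) t (Submodule.Quotient.mk v) =
      Submodule.Quotient.mk (fun h => evP (b h).op t (v h)) := by
  induction t generalizing v with
  | nil =>
    simp only [evP, List.map_nil, List.sum_nil, LinearMap.zero_apply]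
    rfl
  | cons w t ih =>
    simp only [evP, List.map_cons, List.sum_cons, LinearMap.add_apply] at ih ⊢
    rw [ih, evW_mk]
    rfl

private theorem prod_mk (b : ℕ → Blk K p) (hb : ∀ h, Good (h + 1) (b h)) (ts : List (Pol p))
    (v : ∀ h, (b h).B) :
    (ts.map (evP (evQ b hb))).prod (Submodule.Quotient.mk v) =
      Submodule.Quotient.mk (fun h => (ts.map (evP (b h).op)).prod (v h)) := by
  induction ts generalizing v with
  | nil => simp
  | cons t ts ih =>
    simp only [List.map_cons, List.prod_cons, Module.End.mul_apply]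
    rw [ih, evP_mk]

/-- Module RING. Good blocks of all heights give the ring. -/
theorem ring_part (K : Type) [Field K] (h2 : (2 : K) = 0) (p : ℕ)
    (H : ∀ h, 1 ≤ h → ∃ b : Blk K p, Good h b) : RLst := by
  classical
  choose b0 hb0 using H
  let b : ℕ → Blk K p := fun h => b0 (h + 1) (by omega)
  have hb : ∀ h, Good (h + 1) (b h) := fun h => hb0 (h + 1) (by omega)
  refine ⟨p, Module.End K ((∀ h, (b h).B) ⧸ Nsub b hb), inferInstance, evQ b hb, ?_, ?_, ?_, ?_⟩
  · refine LinearMap.ext fun x => ?_
    obtain ⟨v, rfl⟩ := Submodule.Quotient.mk_surjective _ x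
    have h3 : (2 : Module.End K ((∀ h, (b h).B) ⧸ Nsub b hb)) = (2 : K) • 1 := by
      rw [two_smul, one_add_one_eq_two]
    rw [h3, h2, zero_smul]
  · intro h0
    let v : ∀ h, (b h).B := fun h => (b h).e 1
    have h1 : evQ b hb .a (Submodule.Quotient.mk v) = 0 := by rw [h0]; rfl
    rw [evQ_mk, Submodule.Quotient.mk_eq_zero] at h1
    obtain ⟨z, hz⟩ := h1
    have h3 : (b z).pr z ((b z).op .a ((b z).e 1)) = (b z).op .a ((b z).e 1) := hz z
    have h4 := (hb z).prae z (by omega) 1
    have h5 : (b z).op .a ((b z).e 1) = 0 := by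
      rw [← h3]; exact h4
    have h6 := (hb z).faae 1
    rw [h5, map_zero, map_zero] at h6
    have hw := (hb z).wpos
    have h7 := congrFun h6 ⟨0, hw⟩
    simp at h7
  · refine LinearMap.ext fun x => ?_
    obtain ⟨v, rfl⟩ := Submodule.Quotient.mk_surjective _ x
    let v' : ∀ h, (b h).B := fun h => v h - (b h).pr 1 (v h)
    have h1 : (Submodule.Quotient.mk v : (∀ h, (b h).B) ⧸ Nsub b hb) =
        Submodule.Quotient.mk v' := by
      rw [Submodule.Quotient.eq]
      refine ⟨1, fun h => ?_⟩
      have h3 : (v - v') h = (b h).pr 1 (v h) := by simp [v']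
      rw [h3]
      have := congrArg (fun T => T (v h)) ((hb h).prmul 1 1)
      simpa using this
    rw [h1, evQ_mk]
    rw [LinearMap.sum_apply]
    have h4 : (fun h => (b h).op .a (v' h)) =
        ∑ i, (fun h => (b h).op (.U i) ((b h).op .a ((b h).op .a ((b h).op (.D i) (v' h))))) := by
      funext h
      rw [Finset.sum_apply]
      exact (hb h).rel (v h)
    rw [h4]
    have h5 : ∀ (s : Finset (Fin p)) (F : Fin p → ∀ h, (b h).B),
        (Submodule.Quotient.mk (∑ i ∈ s, F i) : (∀ h, (b h).B) ⧸ Nsub b hb) =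
        ∑ i ∈ s, Submodule.Quotient.mk (F i) := by
      intro s F
      exact map_sum (Nsub b hb).mkQ F s
    rw [h5]
    rfl
  · intro T hT
    obtain ⟨n, rfl⟩ := enumT_surj p T
    refine ⟨Mb (2 ^ (n + 1)), fun ts hts hlen => ?_⟩
    refine LinearMap.ext fun x => ?_
    obtain ⟨v, rfl⟩ := Submodule.Quotient.mk_surjective _ x
    rw [prod_mk]
    have h1 : (fun h => (ts.map (evP (b h).op)).prod (v h)) = (0 : ∀ h, (b h).B) := by
      funext h
      rw [(hb h).locnil n hT ts hts hlen]
      rfl
    rw [h1]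
    rfl

end RingPart

end Pool.Agent.BinFin
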