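import Mathlib

set_option autoImplicit false

namespace Pool.Agent.BinFin

section
variable {K V U : Type} [Field K] [AddCommGroup V] [Module K V] [Module.Finite K V]
  [AddCommGroup U] [Module K U] [Module.Finite K U]

/-- `S` has codimension at most `c` -/
def Cod (S : Submodule K V) (c : ℕ) : Prop := Module.finrank K V ≤ Module.finrank K S + c

/-- Module LIN (a) -/
theorem Cod.mono {S S' : Submodule K V} {c c' : ℕ} (h : Cod S c) (hS : S ≤ S') (hc : c ≤ c') :
    Cod S' c' := by
  have h1 := Submodule.finrank_mono hS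
  unfold Cod at *
  omega

/-- Module LIN (b) -/
theorem Cod.inf {S S' : Submodule K V} {c c' : ℕ} (h : Cod S c) (h' : Cod S' c') :
    Cod (S ⊓ S') (c + c') := by
  have h1 := Submodule.finrank_sup_add_finrank_inf_eq S S'
  have h2 := Submodule.finrank_le (S ⊔ S')
  unfold Cod at *
  omega

/-- Module LIN (c) -/
theorem cod_ker (φ : V →ₗ[K] U) : Cod (LinearMap.ker φ) (Module.finrank K U) := by
  have h1 := LinearMap.finrank_range_add_finrank_ker φ
  have h2 := Submodule.finrank_le (LinearMap.range φ)
  unfold Cod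
  omega

private theorem cod_top : Cod (⊤ : Submodule K V) 0 := by
  unfold Cod
  rw [finrank_top]
  omega

/-- Module LIN (d): a family of at most `k` conditions of codimension `c` -/
theorem cod_list {α : Type} (L : List α) (S : α → Submodule K V) (c k : ℕ) (hk : L.length ≤ k)
    (h : ∀ t ∈ L, Cod (S t) c) : Cod (⨅ t ∈ L, S t) (k * c) := by
  have key : Cod (⨅ t ∈ L, S t) (L.length * c) := by
    clear hk
    induction L with
    | nil => simpa using (cod_top (K := K) (V := V))
    | cons a L ih =>
      have h1 := ih (fun t ht => h t (List.mem_cons_of_mem _ ht))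
      have h2 := h a List.mem_cons_self
      have h3 := h2.inf h1
      have h4 : (⨅ t ∈ a :: L, S t) = S a ⊓ ⨅ t ∈ L, S t := by
        simp [List.mem_cons, iInf_or, iInf_inf_eq]
      rw [h4, List.length_cons, Nat.succ_mul, Nat.add_comm]
      exact h3
  exact key.mono le_rfl (Nat.mul_le_mul_right c hk)

/-- Module LIN (e) -/
theorem cod_finset {α : Type} (s : Finset α) (S : α → Submodule K V) (c : α → ℕ)
    (h : ∀ t ∈ s, Cod (S t) (c t)) : Cod (⨅ t ∈ s, S t) (∑ t ∈ s, c t) := by
  classical
  induction s using Finset.induction_on with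
  | empty => simpa using (cod_top (K := K) (V := V))
  | insert a s ha ih =>
    rw [Finset.iInf_insert, Finset.sum_insert ha]
    exact (h a (Finset.mem_insert_self _ _)).inf
      (ih fun t ht => h t (Finset.mem_insert_of_mem ht))

/-- Module LIN (f) -/
theorem finrank_sup_list {α : Type} (L : List α) (S : α → Submodule K V) (c k : ℕ)
    (hk : L.length ≤ k) (h : ∀ t ∈ L, Module.finrank K (S t) ≤ c) :
    Module.finrank K (⨆ t ∈ L, S t : Submodule K V) ≤ k * c := by
  have key : Module.finrank K (⨆ t ∈ L, S t : Submodule K V) ≤ L.length * c := by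
    clear hk
    induction L with
    | nil => simp
    | cons a L ih =>
      have h1 := ih (fun t ht => h t (List.mem_cons_of_mem _ ht))
      have h2 := h a List.mem_cons_self
      have h3 := Submodule.finrank_add_le_finrank_add_finrank (S a) (⨆ t ∈ L, S t)
      have h4 : (⨆ t ∈ a :: L, S t) = S a ⊔ ⨆ t ∈ L, S t := by
        simp [List.mem_cons, iSup_or, iSup_sup_eq]
      rw [h4, List.length_cons, Nat.succ_mul, Nat.add_comm]
      exact h3.trans (Nat.add_le_add h2 h1)
  exact key.trans (Nat.mul_le_mul_right c hk)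

/-- Module LIN (g) -/
theorem finrank_sup_finset {α : Type} (s : Finset α) (S : α → Submodule K V) (c : α → ℕ)
    (h : ∀ t ∈ s, Module.finrank K (S t) ≤ c t) :
    Module.finrank K (⨆ t ∈ s, S t : Submodule K V) ≤ ∑ t ∈ s, c t := by
  classical
  induction s using Finset.induction_on with
  | empty => simp
  | insert a s ha ih =>
    rw [Finset.iSup_insert, Finset.sum_insert ha]
    exact (Submodule.finrank_add_le_finrank_add_finrank _ _).trans
      (Nat.add_le_add (h a (Finset.mem_insert_self _ _))
        (ih fun t ht => h t (Finset.mem_insert_of_mem ht)))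

/-- Module LIN (h): the conditions `π A Θ = 0` -/
theorem cod_left {W V' : Type} [AddCommGroup W] [Module K W] [Module.Finite K W]
    [AddCommGroup V'] [Module K V'] [Module.Finite K V']
    (π : U →ₗ[K] U) (A : (W →ₗ[K] V') →ₗ[K] (V →ₗ[K] U)) :
    Cod (V := W →ₗ[K] V') (LinearMap.ker ((LinearMap.llcomp K V U U π) ∘ₗ A))
      (Module.finrank K V * Module.finrank K (LinearMap.range π)) := by
  have h1 := cod_ker ((LinearMap.llcomp K V U (LinearMap.range π) π.rangeRestrict) ∘ₗ A)
  rw [Module.finrank_linearMap K K V (LinearMap.range π)] at h1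
  refine h1.mono ?_ le_rfl
  intro Θ hΘ
  rw [LinearMap.mem_ker] at hΘ ⊢
  ext v
  have h2 := congrArg Subtype.val (LinearMap.congr_fun hΘ v)
  exact h2

/-- Module LIN (i): the conditions `A(Θ) π = 0` -/
theorem cod_right {W V' : Type} [AddCommGroup W] [Module K W] [Module.Finite K W]
    [AddCommGroup V'] [Module K V'] [Module.Finite K V']
    (π : V →ₗ[K] V) (A : (W →ₗ[K] V') →ₗ[K] (V →ₗ[K] U)) :
    Cod (V := W →ₗ[K] V') (LinearMap.ker ((LinearMap.lcomp K U π) ∘ₗ A))
      (Module.finrank K (LinearMap.range π) * Module.finrank K U) := by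
  have h1 := cod_ker ((LinearMap.lcomp K U (LinearMap.range π).subtype) ∘ₗ A)
  rw [Module.finrank_linearMap K K (LinearMap.range π) U] at h1
  refine h1.mono ?_ le_rfl
  intro Θ hΘ
  rw [LinearMap.mem_ker] at hΘ ⊢
  ext v
  exact LinearMap.congr_fun hΘ ⟨π v, LinearMap.mem_range_self π v⟩

/-- Module LIN (k): the condition `π A v = 0` on vectors `v` -/
theorem cod_comp_ker (π : U →ₗ[K] U) (A : V →ₗ[K] U) :
    Cod (LinearMap.ker (π ∘ₗ A)) (Module.finrank K (LinearMap.range π)) := by
  refine (cod_ker (π.rangeRestrict ∘ₗ A)).mono ?_ le_rfl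
  intro v hv
  rw [LinearMap.mem_ker] at hv ⊢
  exact congrArg Subtype.val hv

/-- Module LIN (l) -/
theorem finrank_range_comp_le (A : V →ₗ[K] U) (π : V →ₗ[K] V) :
    Module.finrank K (LinearMap.range (A ∘ₗ π)) ≤ Module.finrank K (LinearMap.range π) := by
  rw [LinearMap.range_comp]
  exact Submodule.finrank_map_le A _

private theorem finrank_le_map_add_ker (f : V →ₗ[K] U) (S : Submodule K V) :
    Module.finrank K S ≤ Module.finrank K (S.map f) + Module.finrank K (LinearMap.ker f) := by
  have h1 := LinearMap.finrank_range_add_finrank_ker (f.domRestrict S)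
  rw [LinearMap.range_domRestrict] at h1
  have h2 : (LinearMap.ker (f.domRestrict S)).map S.subtype ≤ LinearMap.ker f := by
    rintro _ ⟨x, hx, rfl⟩
    exact hx
  have h3 := Submodule.finrank_mono h2
  rw [Submodule.finrank_map_subtype_eq] at h3
  omega

/-- Module LIN (j): entry and exit -/
theorem exists_entry_exit (Θ : V →ₗ[K] V) (KK II : Submodule K V) (r c1 c2 : ℕ)
    (hr : r + c1 + c2 ≤ Module.finrank K (LinearMap.range Θ))
    (h1 : Cod KK c1) (h2 : Module.finrank K II ≤ c2) :
    ∃ (X0 : (Fin r → K) →ₗ[K] V) (Y1 : V →ₗ[K] (Fin r → K)),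
      (∀ x, X0 x ∈ KK) ∧ (∀ v ∈ II, Y1 v = 0) ∧ ∀ x, Y1 (Θ (X0 x)) = x := by
  classical
  let g : KK →ₗ[K] V ⧸ II := II.mkQ ∘ₗ Θ ∘ₗ KK.subtype
  have hg : LinearMap.range g = (KK.map Θ).map II.mkQ := by
    rw [LinearMap.range_comp, LinearMap.range_comp, Submodule.range_subtype]
  have hrk : r ≤ Module.finrank K (LinearMap.range g) := by
    have e1 := finrank_le_map_add_ker Θ KK
    have e2 := finrank_le_map_add_ker II.mkQ (KK.map Θ)
    have e3 := LinearMap.finrank_range_add_finrank_ker Θ
    rw [Submodule.ker_mkQ] at e2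
    rw [hg]
    unfold Cod at h1
    omega
  let b := Module.finBasis K (LinearMap.range g)
  let j : (Fin r → K) →ₗ[K] LinearMap.range g :=
    Fintype.linearCombination K (fun i => b (Fin.castLE hrk i))
  let k : LinearMap.range g →ₗ[K] (Fin r → K) :=
    LinearMap.pi (fun i => b.coord (Fin.castLE hrk i))
  have hkj : ∀ x, k (j x) = x := by
    intro x
    funext i
    simp only [k, j, LinearMap.pi_apply, Fintype.linearCombination_apply, map_sum, map_smul,
      Module.Basis.coord_apply, Module.Basis.repr_self, Finsupp.single_apply, smul_eq_mul]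
    rw [Finset.sum_eq_single i]
    · simp
    · intro c _ hc
      have : Fin.castLE hrk c ≠ Fin.castLE hrk i := fun h => hc (Fin.castLE_injective hrk h)
      simp [this]
    · simp
  obtain ⟨s, hs⟩ := LinearMap.exists_rightInverse_of_surjective g.rangeRestrict
    (LinearMap.range_rangeRestrict g)
  obtain ⟨ρ, hρ⟩ := LinearMap.exists_leftInverse_of_injective
    (LinearMap.range g).subtype (by simp)
  refine ⟨KK.subtype ∘ₗ s ∘ₗ j, k ∘ₗ ρ ∘ₗ II.mkQ, fun x => (s (j x)).2, ?_, ?_⟩
  · intro v hv
    have : II.mkQ v = 0 := by simpa using hv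
    simp only [LinearMap.comp_apply, this, map_zero]
  · intro x
    have e1 : II.mkQ (Θ ((KK.subtype ∘ₗ s ∘ₗ j) x)) = ((j x : LinearMap.range g) : V ⧸ II) := by
      have := congrArg Subtype.val (LinearMap.congr_fun hs (j x))
      exact this
    have e2 : ρ ((j x : LinearMap.range g) : V ⧸ II) = j x := LinearMap.congr_fun hρ (j x)
    rw [LinearMap.comp_apply, LinearMap.comp_apply, e1, e2, hkj]

end

end Pool.Agent.BinFin
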