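import Mathlib

set_option autoImplicit false

namespace Pool.Agent.BinFin

private theorem rank_aux {K V : Type} [Field K] [Infinite K] [AddCommGroup V] [Module K V]
    [Module.Finite K V] (T Ψ : V →ₗ[K] V) (v : V) (hv : T v = 0)
    (hΨ : Ψ v ∉ LinearMap.range T) :
    ∃ l : K, Module.finrank K (LinearMap.range T) + 1 ≤
      Module.finrank K (LinearMap.range (T + l • Ψ)) := by
  classical
  obtain ⟨φ0, hφ0, hφR⟩ := Submodule.exists_le_ker_of_notMem hΨ
  -- normalise
  set φ : V →ₗ[K] K := (φ0 (Ψ v))⁻¹ • φ0 with hφ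
  have hφ1 : φ (Ψ v) = 1 := by
    simp [hφ, hφ0]
  have hφ2 : ∀ x ∈ LinearMap.range T, φ x = 0 := by
    intro x hx
    have : φ0 x = 0 := hφR hx
    simp [hφ, this]
  obtain ⟨π0, hπ0⟩ := LinearMap.exists_leftInverse_of_injective
    (LinearMap.range T).subtype (by simp)
  have hπ0' : ∀ x : LinearMap.range T, π0 (x : V) = x := fun x => by
    have := LinearMap.congr_fun hπ0 x
    simpa using this
  set π : V →ₗ[K] LinearMap.range T := π0 - φ.smulRight (π0 (Ψ v)) with hπ
  have hπ1 : π (Ψ v) = 0 := by simp [hπ, hφ1]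
  have hπ2 : ∀ x : LinearMap.range T, π (x : V) = x := by
    intro x
    simp [hπ, hπ0', hφ2 x.1 x.2]
  obtain ⟨s, hs⟩ := LinearMap.exists_rightInverse_of_surjective T.rangeRestrict
    (LinearMap.range_rangeRestrict T)
  have hs' : ∀ x : LinearMap.range T, T (s x) = (x : V) := by
    intro x
    have := LinearMap.congr_fun hs x
    have h2 := congrArg Subtype.val this
    simpa using h2
  let q : V →ₗ[K] (LinearMap.range T) × K := π.prod φ
  let E : Module.End K ((LinearMap.range T) × K) :=
    q ∘ₗ Ψ ∘ₗ s ∘ₗ LinearMap.fst K (LinearMap.range T) K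
  have hfin : {μ : K | E.HasEigenvalue μ}.Finite := Module.End.finite_hasEigenvalue E
  obtain ⟨μ, hμ⟩ := (hfin.union (Set.finite_singleton (0 : K))).infinite_compl.nonempty
  have hμ1 : ¬ E.HasEigenvalue μ := fun h => hμ (Or.inl h)
  have hμ0 : μ ≠ 0 := fun h => hμ (Or.inr h)
  refine ⟨-μ⁻¹, ?_⟩
  set l : K := -μ⁻¹ with hl
  have hl0 : l ≠ 0 := by simp [hl, hμ0]
  let G : ((LinearMap.range T) × K) →ₗ[K] V :=
    s ∘ₗ LinearMap.fst K (LinearMap.range T) K +
      (LinearMap.snd K (LinearMap.range T) K).smulRight (l⁻¹ • v)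
  have hF : ∀ z : (LinearMap.range T) × K, q ((T + l • Ψ) (G z)) = z + l • E z := by
    rintro ⟨x, c⟩
    have h1 : (T + l • Ψ) (G (x, c)) = (x : V) + l • Ψ (s x) + c • Ψ v := by
      simp only [G, LinearMap.add_apply, LinearMap.smul_apply, LinearMap.comp_apply,
        LinearMap.fst_apply, LinearMap.smulRight_apply, LinearMap.snd_apply, map_add, map_smul,
        hs', hv]
      rw [zero_add, smul_smul l⁻¹ l, inv_mul_cancel₀ hl0, one_smul]
    have hE : E (x, c) = (π (Ψ (s x)), φ (Ψ (s x))) := rfl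
    have hq : ∀ w, q w = (π w, φ w) := fun w => rfl
    rw [h1, hq, hE]
    ext1
    · simp only [map_add, map_smul, hπ2, hπ1, smul_zero, add_zero, Prod.smul_fst, Prod.fst_add]
    · simp only [map_add, map_smul, hφ2 x.1 x.2, hφ1, Prod.smul_snd, Prod.snd_add, smul_eq_mul,
        mul_one, zero_add]
      ring
  have hinj : Function.Injective (q ∘ₗ (T + l • Ψ) ∘ₗ G) := by
    rw [← LinearMap.ker_eq_bot, LinearMap.ker_eq_bot']
    intro z hz
    by_contra hz0
    apply hμ1
    have h2 : z + l • E z = 0 := by rw [← hF z]; exact hz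
    have h3 : E z = μ • z := by
      have h4 : l • E z = -z := by
        rw [eq_neg_iff_add_eq_zero, add_comm]; exact h2
      have h5 : E z = l⁻¹ • (-z) := by rw [← h4, smul_smul, inv_mul_cancel₀ hl0, one_smul]
      rw [h5, hl, inv_neg, inv_inv, neg_smul, smul_neg, neg_neg]
    exact Module.End.hasEigenvalue_of_hasEigenvector
      (Module.End.hasEigenvector_iff.mpr ⟨Module.End.mem_eigenspace_iff.mpr h3, hz0⟩)
  have h6 : Module.finrank K (LinearMap.range (q ∘ₗ (T + l • Ψ) ∘ₗ G)) =
      Module.finrank K ((LinearMap.range T) × K) := LinearMap.finrank_range_of_inj hinj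
  have h7 : Module.finrank K ((LinearMap.range T) × K) =
      Module.finrank K (LinearMap.range T) + 1 := by
    rw [Module.finrank_prod, Module.finrank_self]
  have h8 : LinearMap.range (q ∘ₗ (T + l • Ψ) ∘ₗ G) ≤
      (LinearMap.range (T + l • Ψ)).map q := by
    rintro _ ⟨z, rfl⟩
    exact ⟨_, ⟨G z, rfl⟩, rfl⟩
  have h9 := Submodule.finrank_mono h8
  have h10 := Submodule.finrank_map_le q (LinearMap.range (T + l • Ψ))
  omega

/-- Module RANK. Over an infinite field a subspace of `End V` of codimension `< m ^ 2` contains an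
element of rank `> dim V - m`. -/
theorem exists_large_rank {K V : Type} [Field K] [Infinite K] [AddCommGroup V] [Module K V]
    [Module.Finite K V] (S : Submodule K (V →ₗ[K] V)) (m : ℕ)
    (h : Module.finrank K (V →ₗ[K] V) < Module.finrank K S + m ^ 2) :
    ∃ Θ ∈ S, Module.finrank K V < Module.finrank K (LinearMap.range Θ) + m := by
  classical
  -- an element of maximal rank
  have hbdd : ∃ T ∈ S, ∀ T' ∈ S, Module.finrank K (LinearMap.range T') ≤
      Module.finrank K (LinearMap.range T) := by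
    have hne : (Set.range fun T : S => Module.finrank K (LinearMap.range T.1)).Nonempty :=
      ⟨_, ⟨0, rfl⟩⟩
    have hb : BddAbove (Set.range fun T : S => Module.finrank K (LinearMap.range T.1)) := by
      refine ⟨Module.finrank K V, ?_⟩
      rintro _ ⟨T, rfl⟩
      exact Submodule.finrank_le _
    obtain ⟨T, hT⟩ := Nat.sSup_mem hne hb
    refine ⟨T.1, T.2, fun T' hT' => ?_⟩
    have : Module.finrank K (LinearMap.range T.1) =
      sSup (Set.range fun T : S => Module.finrank K (LinearMap.range T.1)) := hT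
    rw [this]
    exact le_csSup hb ⟨⟨T', hT'⟩, rfl⟩
  obtain ⟨T, hTS, hmax⟩ := hbdd
  refine ⟨T, hTS, ?_⟩
  have hclaim : ∀ Ψ ∈ S, ∀ v, T v = 0 → Ψ v ∈ LinearMap.range T := by
    intro Ψ hΨ v hv
    by_contra hcon
    obtain ⟨l, hl⟩ := rank_aux T Ψ v hv hcon
    have := hmax (T + l • Ψ) (S.add_mem hTS (S.smul_mem l hΨ))
    omega
  -- the restriction map
  let Φ : (V →ₗ[K] V) →ₗ[K] (LinearMap.ker T →ₗ[K] V ⧸ LinearMap.range T) :=
    (LinearMap.lcomp K (V ⧸ LinearMap.range T) (LinearMap.ker T).subtype) ∘ₗ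
      (LinearMap.llcomp K V V (V ⧸ LinearMap.range T) (LinearMap.range T).mkQ)
  have hΦ : ∀ Ψ x, Φ Ψ x = (LinearMap.range T).mkQ (Ψ x) := fun Ψ x => rfl
  have hSΦ : S ≤ LinearMap.ker Φ := by
    intro Ψ hΨ
    rw [LinearMap.mem_ker]
    ext x
    rw [hΦ]
    simp only [Submodule.mkQ_apply, LinearMap.zero_apply, Submodule.Quotient.mk_eq_zero]
    exact hclaim Ψ hΨ x x.2
  have hsurj : Function.Surjective Φ := by
    intro g
    obtain ⟨p, hp⟩ := LinearMap.exists_leftInverse_of_injective (LinearMap.ker T).subtype (by simp)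
    obtain ⟨t, ht⟩ := LinearMap.exists_rightInverse_of_surjective (LinearMap.range T).mkQ
      (Submodule.range_mkQ _)
    refine ⟨t ∘ₗ g ∘ₗ p, ?_⟩
    ext x
    rw [hΦ]
    have h1 : p (x : V) = x := by
      have := LinearMap.congr_fun hp x
      simpa using this
    simp only [LinearMap.comp_apply, h1]
    exact LinearMap.congr_fun ht (g x)
  have hrn := LinearMap.finrank_range_add_finrank_ker Φ
  rw [LinearMap.range_eq_top.mpr hsurj, finrank_top, Module.finrank_linearMap K K (LinearMap.ker T)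
    (V ⧸ LinearMap.range T)] at hrn
  have hS := Submodule.finrank_mono hSΦ
  have hT := LinearMap.finrank_range_add_finrank_ker T
  have hq := Submodule.finrank_quotient_add_finrank (LinearMap.range T)
  by_contra hcon
  push Not at hcon
  have hk : m ≤ Module.finrank K (LinearMap.ker T) := by omega
  have hk' : m ≤ Module.finrank K (V ⧸ LinearMap.range T) := by omega
  have := Nat.mul_le_mul hk hk'
  have hm : m ^ 2 = m * m := by ring
  omega

end Pool.Agent.BinFin
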