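import Pool.Agent.Work.MP_73176e_al.ExtGood
import Pool.Agent.Work.MP_73176e_al.LinPart
import Pool.Agent.Work.MP_73176e_al.RankPart

set_option autoImplicit false

namespace Pool.Agent.BinFin

variable {K : Type} [Field K]

section
variable {p : ℕ} (b : Blk K p)

theorem Qw_add (Θ Θ' : Wp b →ₗ[K] Wp b) (w : Wd p) :
    Qw b (Θ + Θ') w = Qw b Θ w + Qw b Θ' w := by
  induction w with
  | nil => simp [Qw]
  | cons l w ih =>
    simp only [Qw, ih, LinearMap.comp_add, LinearMap.add_comp]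
    abel

theorem Qw_smul (c : K) (Θ : Wp b →ₗ[K] Wp b) (w : Wd p) :
    Qw b (c • Θ) w = c • Qw b Θ w := by
  induction w with
  | nil => simp [Qw]
  | cons l w ih =>
    simp only [Qw, ih, LinearMap.comp_smul, LinearMap.smul_comp, smul_add]

theorem Qp_add (Θ Θ' : Wp b →ₗ[K] Wp b) (t : Pol p) :
    Qp b (Θ + Θ') t = Qp b Θ t + Qp b Θ' t := by
  induction t with
  | nil => simp [Qp]
  | cons w t ih =>
    have e : ∀ Θ : Wp b →ₗ[K] Wp b, Qp b Θ (w :: t) = Qw b Θ w + Qp b Θ t := fun Θ => by simp [Qp]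
    rw [e, e, e, ih, Qw_add]
    abel

theorem Qp_smul (c : K) (Θ : Wp b →ₗ[K] Wp b) (t : Pol p) :
    Qp b (c • Θ) t = c • Qp b Θ t := by
  induction t with
  | nil => simp [Qp]
  | cons w t ih =>
    have e : ∀ Θ : Wp b →ₗ[K] Wp b, Qp b Θ (w :: t) = Qw b Θ w + Qp b Θ t := fun Θ => by simp [Qp]
    rw [e, e, ih, Qw_smul, smul_add]

/-- `Qp` as a linear map in `Θ` -/
def Ql (t : Pol p) : (Wp b →ₗ[K] Wp b) →ₗ[K] (b.B →ₗ[K] b.B) where
  toFun Θ := Qp b Θ t
  map_add' Θ Θ' := Qp_add b Θ Θ' t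
  map_smul' c Θ := Qp_smul b c Θ t

/-- the conditions on `Θ` -/
noncomputable def SS (z : ℕ) (t : Pol p) : Submodule K (Wp b →ₗ[K] Wp b) :=
  (LinearMap.ker ((LinearMap.llcomp K (Wp b) b.B b.B (b.pr z)) ∘ₗ
      (LinearMap.llcomp K (Wp b) (Wp b) b.B (Np b t))) ⊓
    LinearMap.ker ((LinearMap.lcomp K (Wp b) (b.pr z)) ∘ₗ (LinearMap.lcomp K (Wp b) (Mp b t)))) ⊓
  (LinearMap.ker ((LinearMap.lcomp K b.B (b.pr z)) ∘ₗ Ql b t) ⊓
    LinearMap.ker ((LinearMap.llcomp K b.B b.B b.B (b.pr z)) ∘ₗ Ql b t))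

theorem mem_SS (z : ℕ) (t : Pol p) (Θ : Wp b →ₗ[K] Wp b) (h : Θ ∈ SS b z t) :
    (∀ v, b.pr z (Np b t (Θ v)) = 0) ∧ (∀ v, Θ (Mp b t (b.pr z v)) = 0) ∧
    (∀ v, Qp b Θ t (b.pr z v) = 0) ∧ (∀ v, b.pr z (Qp b Θ t v) = 0) := by
  obtain ⟨⟨h1, h2⟩, h3, h4⟩ := h
  replace h1 := LinearMap.mem_ker.1 h1
  replace h2 := LinearMap.mem_ker.1 h2
  replace h3 := LinearMap.mem_ker.1 h3
  replace h4 := LinearMap.mem_ker.1 h4
  refine ⟨fun v => ?_, fun v => ?_, fun v => ?_, fun v => ?_⟩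
  · exact congrArg (fun g : Wp b →ₗ[K] b.B => g v) h1
  · exact congrArg (fun g : b.B →ₗ[K] Wp b => g v) h2
  · exact congrArg (fun g : b.B →ₗ[K] b.B => g v) h3
  · exact congrArg (fun g : b.B →ₗ[K] b.B => g v) h4

/-- the rank of the barrier -/
noncomputable def rk (z : ℕ) : ℕ := Module.finrank K (LinearMap.range (b.pr z))

theorem cod_SS (z : ℕ) (t : Pol p) :
    Cod (SS b z t) ((Module.finrank K (Wp b) * rk b z + rk b z * Module.finrank K (Wp b)) +
      (rk b z * Module.finrank K b.B + Module.finrank K b.B * rk b z)) := by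
  unfold SS
  refine Cod.inf (Cod.inf ?_ ?_) (Cod.inf ?_ ?_)
  · exact cod_left _ _
  · exact cod_right _ _
  · exact cod_right _ _
  · exact cod_left _ _

/-- the conditions on entry vectors -/
def KS (Θ : Wp b →ₗ[K] Wp b) (z : ℕ) (t : Pol p) : Submodule K (Wp b) :=
  LinearMap.ker (b.pr z ∘ₗ Np b t) ⊓ LinearMap.ker (b.pr z ∘ₗ Sp b Θ t)

theorem cod_KS (Θ : Wp b →ₗ[K] Wp b) (z : ℕ) (t : Pol p) : Cod (KS b Θ z t) (rk b z + rk b z) :=
  Cod.inf (cod_comp_ker _ _) (cod_comp_ker _ _)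

/-- the space of exit vectors -/
def IS (Θ : Wp b →ₗ[K] Wp b) (z : ℕ) (t : Pol p) : Submodule K (Wp b) :=
  LinearMap.range (Mp b t ∘ₗ b.pr z) ⊔ LinearMap.range (Rp b Θ t ∘ₗ b.pr z)

theorem dim_IS (Θ : Wp b →ₗ[K] Wp b) (z : ℕ) (t : Pol p) :
    Module.finrank K (IS b Θ z t) ≤ rk b z + rk b z := by
  unfold IS
  refine le_trans (Submodule.finrank_add_le_finrank_add_finrank _ _) ?_
  exact add_le_add (finrank_range_comp_le _ _) (finrank_range_comp_le _ _)

end

theorem exists_data [Infinite K] (b : Blk K 4000) (h : ℕ) (hb : Good h b) :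
    ∃ (X0 : (Fin (2000 * b.w) → K) →ₗ[K] Wp b) (Y0 X1 : Wp b →ₗ[K] Wp b)
      (Y1 : Wp b →ₗ[K] (Fin (2000 * b.w) → K)) (Θ : Wp b →ₗ[K] Wp b),
      EHyp b h (2000 * b.w) X0 Y0 X1 Y1 Θ := by
  classical
  have hw := hb.wpos
  have hN : Module.finrank K (Wp b) = 4000 * b.w := by
    simp [Wp, Module.finrank_pi_fintype]
  have hS : ∑ z ∈ Finset.range (h + 1), rk b z ≤ 8 * b.w := hb.dim
  have hdB : Module.finrank K b.B ≤ 8 * b.w := by
    refine le_trans ?_ hS
    have e : rk b h = Module.finrank K b.B := by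
      unfold rk
      rw [hb.prtop h le_rfl]
      have : LinearMap.range (1 : Module.End K b.B) = ⊤ := by
        rw [LinearMap.range_eq_top]
        exact fun x => ⟨x, rfl⟩
      rw [this]
      exact finrank_top K b.B
    rw [← e]
    exact Finset.single_le_sum (f := fun z => rk b z) (fun _ _ => Nat.zero_le _)
      (Finset.mem_range.2 (Nat.lt_succ_self h))
  -- the operator Θ
  let SA : Submodule K (Wp b →ₗ[K] Wp b) :=
    ⨅ z ∈ Finset.range (h + 1), ⨅ t ∈ Tz 4000 z, SS b z t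
  have hSA : Cod SA (∑ z ∈ Finset.range (h + 1), 18 *
      ((Module.finrank K (Wp b) * rk b z + rk b z * Module.finrank K (Wp b)) +
      (rk b z * Module.finrank K b.B + Module.finrank K b.B * rk b z))) := by
    refine cod_finset _ _ _ fun z _ => ?_
    exact cod_list (Tz 4000 z) (fun t => SS b z t) _ 18 (Tz_length 4000 z)
      (fun t _ => cod_SS b z t)
  have hc : ∑ z ∈ Finset.range (h + 1), 18 *
      ((Module.finrank K (Wp b) * rk b z + rk b z * Module.finrank K (Wp b)) +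
      (rk b z * Module.finrank K b.B + Module.finrank K b.B * rk b z)) < (1424 * b.w) ^ 2 := by
    have e : ∀ z, 18 *
      ((Module.finrank K (Wp b) * rk b z + rk b z * Module.finrank K (Wp b)) +
      (rk b z * Module.finrank K b.B + Module.finrank K b.B * rk b z)) =
      (36 * (Module.finrank K (Wp b) + Module.finrank K b.B)) * rk b z := fun z => by ring
    simp only [e]
    rw [← Finset.mul_sum, hN]
    calc 36 * (4000 * b.w + Module.finrank K b.B) * ∑ z ∈ Finset.range (h + 1), rk b z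
        ≤ 36 * (4000 * b.w + 8 * b.w) * (8 * b.w) := by gcongr
      _ < (1424 * b.w) ^ 2 := by nlinarith
  obtain ⟨Θ, hΘS, hΘr⟩ := exists_large_rank SA (1424 * b.w)
    (lt_of_le_of_lt hSA (by omega))
  have hΘ : ∀ z ≤ h, ∀ t ∈ Tz 4000 z, Θ ∈ SS b z t := by
    intro z hz t ht
    have h1 := (Submodule.mem_iInf _).1 hΘS z
    have h2 := (Submodule.mem_iInf _).1 h1 (Finset.mem_range.2 (by omega))
    have h3 := (Submodule.mem_iInf _).1 h2 t
    exact (Submodule.mem_iInf _).1 h3 ht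
  -- a projection onto the range of Θ
  obtain ⟨P, hP⟩ := LinearMap.exists_leftInverse_of_injective (LinearMap.range Θ).subtype
    (Submodule.ker_subtype _)
  let X1 : Wp b →ₗ[K] Wp b := (LinearMap.range Θ).subtype ∘ₗ P
  have hX1 : ∀ v, X1 (Θ v) = Θ v := by
    intro v
    have := congrArg (fun g => g (⟨Θ v, LinearMap.mem_range_self Θ v⟩ : LinearMap.range Θ)) hP
    have h2 : P (Θ v) = ⟨Θ v, LinearMap.mem_range_self Θ v⟩ := this
    show ((P (Θ v) : LinearMap.range Θ) : Wp b) = Θ v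
    rw [h2]
  have hX1' : ∀ v, ∃ u, Θ u = X1 v := fun v => (P v).2
  -- entry and exit
  let KK : Submodule K (Wp b) := ⨅ z ∈ Finset.range (h + 1), ⨅ t ∈ Tz 4000 z, KS b Θ z t
  let II : Submodule K (Wp b) := ⨆ z ∈ Finset.range (h + 1), ⨆ t ∈ Tz 4000 z, IS b Θ z t
  have hsum : ∑ z ∈ Finset.range (h + 1), 18 * (rk b z + rk b z) ≤ 288 * b.w := by
    have e : ∀ z, 18 * (rk b z + rk b z) = 36 * rk b z := fun z => by ring
    simp only [e]
    rw [← Finset.mul_sum]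
    omega
  have hKK : Cod KK (288 * b.w) := by
    refine Cod.mono (cod_finset (Finset.range (h + 1)) _ (fun z => 18 * (rk b z + rk b z))
      fun z _ => ?_) le_rfl hsum
    exact cod_list (Tz 4000 z) (fun t => KS b Θ z t) _ 18 (Tz_length 4000 z)
      (fun t _ => cod_KS b Θ z t)
  have hII : Module.finrank K II ≤ 288 * b.w := by
    refine le_trans (finrank_sup_finset (Finset.range (h + 1)) _
      (fun z => 18 * (rk b z + rk b z)) fun z _ => ?_) hsum
    exact finrank_sup_list (Tz 4000 z) (fun t => IS b Θ z t) _ 18 (Tz_length 4000 z)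
      (fun t _ => dim_IS b Θ z t)
  obtain ⟨X0, Y1, hX0, hY1, hid⟩ := exists_entry_exit Θ KK II (2000 * b.w) (288 * b.w) (288 * b.w)
    (by omega) hKK hII
  have hK : ∀ z ≤ h, ∀ t ∈ Tz 4000 z, ∀ v, X0 v ∈ KS b Θ z t := by
    intro z hz t ht v
    have h1 := (Submodule.mem_iInf _).1 (hX0 v) z
    have h2 := (Submodule.mem_iInf _).1 h1 (Finset.mem_range.2 (by omega))
    have h3 := (Submodule.mem_iInf _).1 h2 t
    exact (Submodule.mem_iInf _).1 h3 ht
  have hI : ∀ z ≤ h, ∀ t ∈ Tz 4000 z, ∀ v ∈ IS b Θ z t, Y1 v = 0 := by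
    intro z hz t ht v hv
    refine hY1 v ?_
    have h1 : IS b Θ z t ≤ ⨆ t ∈ Tz 4000 z, IS b Θ z t :=
      le_iSup₂_of_le (f := fun t (_ : t ∈ Tz 4000 z) => IS b Θ z t) t ht le_rfl
    have h2 : (⨆ t ∈ Tz 4000 z, IS b Θ z t) ≤ II :=
      le_iSup₂_of_le (f := fun z (_ : z ∈ Finset.range (h + 1)) => ⨆ t ∈ Tz 4000 z, IS b Θ z t) z
        (Finset.mem_range.2 (by omega)) le_rfl
    exact h2 (h1 hv)
  refine ⟨X0, Θ, X1, Y1, Θ, ?_⟩
  exact
    { hΘ := hX1
      hid := hid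
      c1 := fun z hz t ht v => LinearMap.mem_ker.1 (hK z hz t ht v).1
      c2 := fun z hz t ht v => by
        obtain ⟨u, hu⟩ := hX1' v
        rw [← hu]
        exact (mem_SS b z t Θ (hΘ z hz t ht)).1 u
      c3 := fun z hz t ht v => (mem_SS b z t Θ (hΘ z hz t ht)).2.1 v
      c4 := fun z hz t ht v => hI z hz t ht _
        (Submodule.mem_sup_left (LinearMap.mem_range_self (Mp b t ∘ₗ b.pr z) v))
      c5 := fun z hz t ht v => (mem_SS b z t Θ (hΘ z hz t ht)).2.2.1 v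
      c6 := fun z hz t ht v => (mem_SS b z t Θ (hΘ z hz t ht)).2.2.2 v
      c7 := fun z hz t ht v => hI z hz t ht _
        (Submodule.mem_sup_right (LinearMap.mem_range_self (Rp b Θ t ∘ₗ b.pr z) v))
      c8 := fun z hz t ht v => LinearMap.mem_ker.1 (hK z hz t ht v).2 }

theorem exists_good [Infinite K] (hbase : ∃ b : Blk K 4000, Good 1 b) :
    ∀ h, 1 ≤ h → ∃ b : Blk K 4000, Good h b := by
  intro h
  induction h with
  | zero => intro h; omega
  | succ n ih =>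
    intro _
    rcases Nat.eq_zero_or_pos n with rfl | hn
    · exact hbase
    · obtain ⟨b, hb⟩ := ih hn
      obtain ⟨X0, Y0, X1, Y1, Θ, H⟩ := exists_data b n hb
      exact ⟨_, ext_good hn hb H⟩

end Pool.Agent.BinFin
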