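import Mathlib

set_option autoImplicit false

namespace Pool.Agent.BinFin

/-- additive span of the words of length `m` over `T` -/
def wspan {R : Type} [Ring R] (T : Set R) (m : ℕ) : AddSubgroup R :=
  AddSubgroup.closure {x | ∃ ts : List R, (∀ t ∈ ts, t ∈ T) ∧ ts.length = m ∧ x = ts.prod}

theorem wspan_mul {R : Type} [Ring R] (T : Set R) (m n : ℕ) (x y : R)
    (hx : x ∈ wspan T m) (hy : y ∈ wspan T n) : x * y ∈ wspan T (m + n) := by
  induction hx using AddSubgroup.closure_induction with
  | mem x hx =>
    obtain ⟨ts, h1, h2, rfl⟩ := hx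
    induction hy using AddSubgroup.closure_induction with
    | mem y hy =>
      obtain ⟨ss, h3, h4, rfl⟩ := hy
      refine AddSubgroup.subset_closure ⟨ts ++ ss, ?_, ?_, ?_⟩
      · intro t ht
        rcases List.mem_append.mp ht with h | h
        · exact h1 t h
        · exact h3 t h
      · simp [h2, h4]
      · simp
    | zero => simpa using (wspan T (m + n)).zero_mem
    | add a b _ _ ha hb => rw [mul_add]; exact (wspan T (m + n)).add_mem ha hb
    | neg a _ ha => rw [mul_neg]; exact (wspan T (m + n)).neg_mem ha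
  | zero => simpa using (wspan T (m + n)).zero_mem
  | add a b _ _ ha hb => rw [add_mul]; exact (wspan T (m + n)).add_mem ha hb
  | neg a _ ha => rw [neg_mul]; exact (wspan T (m + n)).neg_mem ha

theorem wspan_pow {R : Type} [Ring R] (T : Set R) (M : Matrix (Fin 3) (Fin 3) R)
    (hM : ∀ i j, M i j ∈ T) (m : ℕ) (i j : Fin 3) : (M ^ (m + 1)) i j ∈ wspan T (m + 1) := by
  induction m generalizing i j with
  | zero =>
    rw [zero_add, pow_one]
    exact AddSubgroup.subset_closure ⟨[M i j], by simpa using hM i j, rfl, by simp⟩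
  | succ m ih =>
    rw [pow_succ, Matrix.mul_apply]
    refine AddSubgroup.sum_mem _ ?_
    intro k _
    refine wspan_mul T (m + 1) 1 _ _ (ih i k) ?_
    exact AddSubgroup.subset_closure ⟨[M k j], by simpa using hM k j, rfl, by simp⟩

theorem wspan_zero {R : Type} [Ring R] (T : Set R) (N : ℕ)
    (hN : ∀ ts : List R, (∀ t ∈ ts, t ∈ T) → N ≤ ts.length → ts.prod = 0) (m : ℕ) (hm : N ≤ m)
    (x : R) (hx : x ∈ wspan T m) : x = 0 := by
  have : wspan T m ≤ ⊥ := by
    rw [wspan, AddSubgroup.closure_le]
    rintro x ⟨ts, h1, h2, rfl⟩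
    exact hN ts h1 (by omega)
  exact this hx

theorem sub_one_pow_two_pow {S : Type} [Ring S] (h2 : (2 : S) = 0) (g : S) (m : ℕ) :
    g ^ (2 ^ m) - 1 = (g - 1) ^ (2 ^ m) := by
  induction m with
  | zero => simp
  | succ m ih =>
    rw [pow_succ, pow_mul, pow_mul, ← ih]
    have : (g ^ 2 ^ m - 1) ^ 2 = (g ^ 2 ^ m) ^ 2 - 1 + (2 : S) * (1 - g ^ 2 ^ m) := by
      noncomm_ring
    rw [this, h2, zero_mul, add_zero]

/-- Module FIN. `R` has characteristic 2, `A` is a subring (without one) in which any 18 elements
generate a nilpotent ring. Two invertible 3 x 3 matrices congruent to 1 modulo `A` generate a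
finite group, and each of them has order a power of two. -/
theorem fin_part {R : Type} [Ring R] (A : NonUnitalSubring R) (h2 : (2 : R) = 0)
    (hN : ∀ T : Finset R, T.card ≤ 18 → (∀ t ∈ T, t ∈ A) →
      ∃ N : ℕ, ∀ ts : List R, (∀ t ∈ ts, t ∈ T) → N ≤ ts.length → ts.prod = 0)
    (g h : (Matrix (Fin 3) (Fin 3) R)ˣ)
    (hg : ∀ i j, ((g : Matrix (Fin 3) (Fin 3) R) - 1) i j ∈ A)
    (hh : ∀ i j, ((h : Matrix (Fin 3) (Fin 3) R) - 1) i j ∈ A) :
    (Subgroup.closure ({g, h} : Set (Matrix (Fin 3) (Fin 3) R)ˣ) :
      Set (Matrix (Fin 3) (Fin 3) R)ˣ).Finite ∧ ∃ m : ℕ, g ^ (2 ^ m) = 1 := by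
  classical
  set T : Finset R := (Finset.univ.image fun p : Fin 3 × Fin 3 =>
      ((g : Matrix (Fin 3) (Fin 3) R) - 1) p.1 p.2) ∪
    (Finset.univ.image fun p : Fin 3 × Fin 3 =>
      ((h : Matrix (Fin 3) (Fin 3) R) - 1) p.1 p.2) with hT
  have hTc : T.card ≤ 18 := by
    refine (Finset.card_union_le _ _).trans ?_
    have h1 := Finset.card_image_le (s := (Finset.univ : Finset (Fin 3 × Fin 3)))
      (f := fun p : Fin 3 × Fin 3 => ((g : Matrix (Fin 3) (Fin 3) R) - 1) p.1 p.2)
    have h2 := Finset.card_image_le (s := (Finset.univ : Finset (Fin 3 × Fin 3)))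
      (f := fun p : Fin 3 × Fin 3 => ((h : Matrix (Fin 3) (Fin 3) R) - 1) p.1 p.2)
    simp only [Finset.card_univ, Fintype.card_prod, Fintype.card_fin] at h1 h2
    omega
  have hTA : ∀ t ∈ T, t ∈ A := by
    intro t ht
    rcases Finset.mem_union.mp ht with ht | ht
    · obtain ⟨p, _, rfl⟩ := Finset.mem_image.mp ht
      exact hg _ _
    · obtain ⟨p, _, rfl⟩ := Finset.mem_image.mp ht
      exact hh _ _
  have hgT : ∀ i j, ((g : Matrix (Fin 3) (Fin 3) R) - 1) i j ∈ (T : Set R) := by
    intro i j
    exact Finset.mem_union_left _ (Finset.mem_image.mpr ⟨(i, j), Finset.mem_univ _, rfl⟩)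
  have hhT : ∀ i j, ((h : Matrix (Fin 3) (Fin 3) R) - 1) i j ∈ (T : Set R) := by
    intro i j
    exact Finset.mem_union_right _ (Finset.mem_image.mpr ⟨(i, j), Finset.mem_univ _, rfl⟩)
  obtain ⟨N, hN⟩ := hN T hTc hTA
  constructor
  · -- finite set of words
    set W : Set R := {x | ∃ ts : List R, (∀ t ∈ ts, t ∈ T) ∧ ts.length < N ∧ 1 ≤ ts.length ∧
      x = ts.prod} with hW
    have hWfin : W.Finite := by
      have hfin : {l : List T | l.length < N}.Finite := List.finite_length_lt T N
      refine (hfin.image (fun l => (l.map (fun t : T => (t : R))).prod)).subset ?_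
      rintro x ⟨ts, h1, h3, -, rfl⟩
      refine ⟨ts.attach.map (fun t => ⟨t.1, h1 t.1 t.2⟩), ?_, ?_⟩
      · simpa using h3
      · simp [List.map_map, Function.comp_def]
    set V : AddSubgroup R := AddSubgroup.closure W with hV
    have hVfin : (V : Set R).Finite := by
      have h2' : ∀ x : R, x + x = 0 := by
        intro x; rw [← two_mul, h2, zero_mul]
      have key : ∀ (F : Finset R), ((AddSubgroup.closure (F : Set R) : AddSubgroup R) :
          Set R).Finite := by
        intro F
        refine ((F.powerset.image (fun S => ∑ x ∈ S, x)).finite_toSet).subset ?_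
        intro x hx
        have hx' : x ∈ AddSubgroup.closure (F : Set R) := hx
        simp only [Finset.coe_image, Set.mem_image, Finset.mem_coe, Finset.mem_powerset]
        induction hx' using AddSubgroup.closure_induction with
        | mem x hx1 =>
          exact ⟨{x}, by simpa using hx1, by simp⟩
        | zero => exact ⟨∅, by simp, by simp⟩
        | add a b ha' hb' ha hb =>
          obtain ⟨S1, h3, h4⟩ := ha ha'
          obtain ⟨S2, h5, h6⟩ := hb hb'
          refine ⟨symmDiff S1 S2, ?_, ?_⟩
          · intro y hy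
            rcases Finset.mem_symmDiff.mp hy with h | h
            · exact h3 h.1
            · exact h5 h.1
          · have e1 : ∑ x ∈ S1, x = ∑ x ∈ S1 ∩ S2, x + ∑ x ∈ S1 \ S2, x :=
              (Finset.sum_inter_add_sum_sdiff S1 S2 _).symm
            have e2 : ∑ x ∈ S2, x = ∑ x ∈ S2 ∩ S1, x + ∑ x ∈ S2 \ S1, x :=
              (Finset.sum_inter_add_sum_sdiff S2 S1 _).symm
            have e3 : ∑ x ∈ symmDiff S1 S2, x = ∑ x ∈ S1 \ S2, x + ∑ x ∈ S2 \ S1, x := by
              rw [symmDiff, Finset.sup_eq_union, Finset.sum_union]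
              exact Finset.disjoint_left.mpr (by
                intro y hy hy'
                simp only [Finset.mem_sdiff] at hy hy'
                exact hy'.2 hy.1)
            rw [e3, ← h4, ← h6, e1, e2, Finset.inter_comm S2 S1]
            have h7 := h2' (∑ x ∈ S1 ∩ S2, x)
            have h8 : ∀ p q r : R, r + r = 0 → q + p = (r + q) + (r + p) := by
              intro p q r hr
              have : (r + q) + (r + p) = (r + r) + (q + p) := by abel
              rw [this, hr, zero_add]
            exact h8 _ _ _ h7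
        | neg a ha' ha =>
          obtain ⟨S1, h3, h4⟩ := ha ha'
          exact ⟨S1, h3, by rw [h4]; exact eq_neg_of_add_eq_zero_left (h2' a)⟩
      have := key hWfin.toFinset
      rwa [Set.Finite.coe_toFinset] at this
    have hVmul : ∀ x ∈ V, ∀ y ∈ V, x * y ∈ V := by
      intro x hx y hy
      induction hx using AddSubgroup.closure_induction with
      | mem x hx =>
        obtain ⟨ts, h1, h3, h3', rfl⟩ := hx
        induction hy using AddSubgroup.closure_induction with
        | mem y hy =>
          obtain ⟨ss, h4, h5, h5', rfl⟩ := hy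
          rw [← List.prod_append]
          have hmem : ∀ t ∈ ts ++ ss, t ∈ T := by
            intro t ht
            rcases List.mem_append.mp ht with h | h
            · exact h1 t h
            · exact h4 t h
          by_cases hl : (ts ++ ss).length < N
          · refine AddSubgroup.subset_closure ⟨ts ++ ss, hmem, hl, ?_, rfl⟩
            simp; omega
          · rw [hN _ hmem (by omega)]
            exact V.zero_mem
        | zero => simpa using V.zero_mem
        | add a b _ _ ha hb => rw [mul_add]; exact V.add_mem ha hb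
        | neg a _ ha => rw [mul_neg]; exact V.neg_mem ha
      | zero => simpa using V.zero_mem
      | add a b _ _ ha hb => rw [add_mul]; exact V.add_mem ha hb
      | neg a _ ha => rw [neg_mul]; exact V.neg_mem ha
    -- entries of g - 1 and h - 1 are in V
    have hTV : ∀ t ∈ T, t ∈ V := by
      intro t ht
      by_cases hl : 1 < N
      · exact AddSubgroup.subset_closure ⟨[t], by simpa using ht, by simpa using hl, by simp, by simp⟩
      · have : t = 0 := by
          have := hN [t] (by simpa using ht) (by simp; omega)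
          simpa using this
        rw [this]; exact V.zero_mem
    -- the submonoid
    let P : Submonoid (Matrix (Fin 3) (Fin 3) R)ˣ :=
      { carrier := {u | ∀ i j, ((u : Matrix (Fin 3) (Fin 3) R) - 1) i j ∈ V}
        one_mem' := by
          intro i j
          simpa using V.zero_mem
        mul_mem' := by
          intro u v hu hv i j
          have : (((u * v : (Matrix (Fin 3) (Fin 3) R)ˣ) : Matrix (Fin 3) (Fin 3) R) - 1) =
              ((u : Matrix (Fin 3) (Fin 3) R) - 1) * ((v : Matrix (Fin 3) (Fin 3) R) - 1) +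
                ((u : Matrix (Fin 3) (Fin 3) R) - 1) + ((v : Matrix (Fin 3) (Fin 3) R) - 1) := by
            rw [Units.val_mul]; noncomm_ring
          rw [this, Matrix.add_apply, Matrix.add_apply, Matrix.mul_apply]
          refine V.add_mem (V.add_mem (V.sum_mem ?_) (hu i j)) (hv i j)
          intro k _
          exact hVmul _ (hu i k) _ (hv k j) }
    have hPfin : (P : Set (Matrix (Fin 3) (Fin 3) R)ˣ).Finite := by
      have hfinpi : {f : Fin 3 → Fin 3 → R | ∀ i j, f i j ∈ (V : Set R)}.Finite := by
        have := Set.Finite.pi' (fun _ : Fin 3 => Set.Finite.pi' (fun _ : Fin 3 => hVfin))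
        exact this
      refine Set.Finite.of_finite_image (f := fun u : (Matrix (Fin 3) (Fin 3) R)ˣ =>
        ((u : Matrix (Fin 3) (Fin 3) R) - 1 : Matrix (Fin 3) (Fin 3) R)) ?_ ?_
      · refine hfinpi.subset ?_
        rintro _ ⟨u, hu, rfl⟩
        exact hu
      · intro u _ v _ huv
        have : (u : Matrix (Fin 3) (Fin 3) R) = v := by
          simpa using huv
        exact Units.ext this
    -- the subgroup
    have hPinv : ∀ u ∈ P, u⁻¹ ∈ P := by
      intro u hu
      have hfu : IsOfFinOrder u := by
        rw [← finite_powers]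
        exact hPfin.subset (by
          rintro _ ⟨k, rfl⟩
          exact P.pow_mem hu k)
      obtain ⟨k, hk⟩ := hfu.mem_powers_iff_mem_zpowers.mpr
        ((Subgroup.zpowers u).inv_mem (Subgroup.mem_zpowers u))
      rw [← hk]
      exact P.pow_mem hu k
    let Q : Subgroup (Matrix (Fin 3) (Fin 3) R)ˣ :=
      { P with inv_mem' := fun {u} hu => hPinv u hu }
    have hQ : Subgroup.closure ({g, h} : Set (Matrix (Fin 3) (Fin 3) R)ˣ) ≤ Q := by
      rw [Subgroup.closure_le]
      rintro u (rfl | rfl)
      · exact fun i j => hTV _ (hgT i j)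
      · exact fun i j => hTV _ (hhT i j)
    exact hPfin.subset hQ
  · refine ⟨N + 1, ?_⟩
    have h2M : (2 : Matrix (Fin 3) (Fin 3) R) = 0 := by
      have : (2 : Matrix (Fin 3) (Fin 3) R) = Matrix.diagonal (fun _ => (2 : R)) := by
        rw [← Matrix.diagonal_ofNat]
      rw [this, h2]
      simp
    have h3 := sub_one_pow_two_pow h2M (g : Matrix (Fin 3) (Fin 3) R) (N + 1)
    have h4 : ((g : Matrix (Fin 3) (Fin 3) R) - 1) ^ (2 ^ (N + 1)) = 0 := by
      ext i j
      have h5 : 0 < 2 ^ (N + 1) := by positivity
      obtain ⟨m, hm⟩ : ∃ m, 2 ^ (N + 1) = m + 1 := ⟨2 ^ (N + 1) - 1, by omega⟩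
      have hlt : N + 1 < 2 ^ (N + 1) := Nat.lt_two_pow_self
      rw [hm]
      have := wspan_pow (T : Set R) _ hgT m i j
      rw [Matrix.zero_apply]
      exact wspan_zero (T : Set R) N hN (m + 1) (by omega) _ this
    rw [h4, sub_eq_zero] at h3
    ext1
    rw [Units.val_pow_eq_pow_val, h3, Units.val_one]

end Pool.Agent.BinFin
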