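import Mathlib

set_option autoImplicit false

namespace Pool.Agent.BinFin

/-- the elementary matrix `1 + x e_ij`, as a unit -/
def El {R : Type} [Ring R] (i j : Fin 3) (h : i ≠ j) (x : R) : (Matrix (Fin 3) (Fin 3) R)ˣ where
  val := 1 + Matrix.single i j x
  inv := 1 - Matrix.single i j x
  val_inv := by
    have : Matrix.single i j x * Matrix.single i j x = 0 := by
      rw [Matrix.single_mul_single_of_ne]; exact h.symm
    noncomm_ring
    simp [this]
  inv_val := by
    have : Matrix.single i j x * Matrix.single i j x = 0 := by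
      rw [Matrix.single_mul_single_of_ne]; exact h.symm
    noncomm_ring
    simp [this]

/-- the group generated by all `1 + x e_ij`, `x ∈ I` -/
def GI {R : Type} [Ring R] (I : AddSubgroup R) : Subgroup (Matrix (Fin 3) (Fin 3) R)ˣ :=
  Subgroup.closure {u | ∃ (i j : Fin 3) (h : i ≠ j) (x : R), x ∈ I ∧ u = El i j h x}

theorem single_mul_ne {R : Type} [Ring R] (i j k l : Fin 3) (h : j ≠ k) (x y : R) :
    Matrix.single i j x * Matrix.single k l y = 0 := by
  rw [Matrix.single_mul_single_of_ne]; exact h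

theorem El_inv_val {R : Type} [Ring R] (i j : Fin 3) (h : i ≠ j) (x : R) :
    (((El i j h x)⁻¹ : (Matrix (Fin 3) (Fin 3) R)ˣ) : Matrix (Fin 3) (Fin 3) R) =
      1 - Matrix.single i j x := rfl

theorem El_val {R : Type} [Ring R] (i j : Fin 3) (h : i ≠ j) (x : R) :
    ((El i j h x : (Matrix (Fin 3) (Fin 3) R)ˣ) : Matrix (Fin 3) (Fin 3) R) =
      1 + Matrix.single i j x := rfl

theorem El_add {R : Type} [Ring R] (i j : Fin 3) (h : i ≠ j) (x y : R) :
    El i j h (x + y) = El i j h x * El i j h y := by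
  ext1
  rw [Units.val_mul, El_val, El_val, El_val, Matrix.single_add]
  have := single_mul_ne i j i j h.symm x y
  noncomm_ring
  simp [this]

theorem El_zero {R : Type} [Ring R] (i j : Fin 3) (h : i ≠ j) :
    El i j h (0 : R) = 1 := by
  ext1
  rw [El_val, Units.val_one]
  simp

theorem El_neg {R : Type} [Ring R] (i j : Fin 3) (h : i ≠ j) (x : R) :
    El i j h (-x) = (El i j h x)⁻¹ := by
  rw [eq_inv_iff_mul_eq_one, ← El_add, neg_add_cancel, El_zero]

theorem El_comm {R : Type} [Ring R] (i j k : Fin 3) (hik : i ≠ k) (hkj : k ≠ j) (hij : i ≠ j)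
    (x y : R) :
    El i k hik x * El k j hkj y * (El i k hik x)⁻¹ * (El k j hkj y)⁻¹ = El i j hij (x * y) := by
  rw [mul_inv_eq_iff_eq_mul, mul_inv_eq_iff_eq_mul]
  ext1
  simp only [Units.val_mul, El_val]
  have h1 : Matrix.single i k x * Matrix.single k j y = Matrix.single i j (x * y) := by
    rw [Matrix.single_mul_single_same]
  have h2 := single_mul_ne i j k j hkj.symm (x * y) y
  have h3 := single_mul_ne i j i k hij.symm (x * y) x
  have h4 := single_mul_ne k j i k hij.symm y x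
  simp only [mul_add, add_mul, mul_one, one_mul, h1, h2, h3, h4, add_zero, zero_mul]
  abel

/-- Module NORM (a). Entries of `g - 1` lie in `A`. -/
theorem GI_entries {R : Type} [Ring R] (A : NonUnitalSubring R) (I : AddSubgroup R)
    (hIA : ∀ x ∈ I, x ∈ A) (g : (Matrix (Fin 3) (Fin 3) R)ˣ) (hg : g ∈ GI I) (i j : Fin 3) :
    ((g : Matrix (Fin 3) (Fin 3) R) - 1) i j ∈ A := by
  have hmul : ∀ u v : Matrix (Fin 3) (Fin 3) R, (∀ i j, (u - 1) i j ∈ A) →
      (∀ i j, (v - 1) i j ∈ A) → ∀ i j, (u * v - 1) i j ∈ A := by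
    intro u v hu hv i j
    have : u * v - 1 = (u - 1) * (v - 1) + (u - 1) + (v - 1) := by noncomm_ring
    rw [this, Matrix.add_apply, Matrix.add_apply, Matrix.mul_apply]
    refine A.add_mem (A.add_mem (sum_mem ?_) (hu i j)) (hv i j)
    intro k _
    exact A.mul_mem (hu i k) (hv k j)
  have key : (∀ i j, ((g : Matrix (Fin 3) (Fin 3) R) - 1) i j ∈ A) ∧
      (∀ i j, (((g⁻¹ : (Matrix (Fin 3) (Fin 3) R)ˣ) : Matrix (Fin 3) (Fin 3) R) - 1) i j ∈ A) := by
    have hg' : g ∈ Subgroup.closure {u : (Matrix (Fin 3) (Fin 3) R)ˣ |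
      ∃ (i j : Fin 3) (h : i ≠ j) (x : R), x ∈ I ∧ u = El i j h x} := hg
    induction hg' using Subgroup.closure_induction with
    | mem u hu =>
      obtain ⟨k, l, h, x, hx, rfl⟩ := hu
      constructor
      · intro i j
        rw [El_val, add_sub_cancel_left, Matrix.single_apply]
        split_ifs
        · exact hIA x hx
        · exact A.zero_mem
      · intro i j
        rw [El_inv_val, sub_sub_cancel_left, Matrix.neg_apply, Matrix.single_apply]
        refine A.neg_mem ?_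
        split_ifs
        · exact hIA x hx
        · exact A.zero_mem
    | one => simp
    | mul u v hu hv ihu ihv =>
      have ihu := ihu hu
      have ihv := ihv hv
      constructor
      · intro i j
        rw [Units.val_mul]
        exact hmul _ _ ihu.1 ihv.1 i j
      · intro i j
        rw [mul_inv_rev, Units.val_mul]
        exact hmul _ _ ihv.2 ihu.2 i j
    | inv u hu ih =>
      have ih := ih hu
      exact ⟨ih.2, by rw [inv_inv]; exact ih.1⟩
  exact key.1 i j

theorem El_mem {R : Type} [Ring R] (I : AddSubgroup R) (i j : Fin 3) (h : i ≠ j) (x : R)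
    (hx : x ∈ I) : El i j h x ∈ GI I :=
  Subgroup.subset_closure ⟨i, j, h, x, hx, rfl⟩

/-- the third index -/
theorem third (i j : Fin 3) (h : i ≠ j) : ∃ k : Fin 3, i ≠ k ∧ k ≠ j := by
  revert i j; decide

/-- if a normal subgroup contains all `El i j (y a z)`, it is everything -/
theorem top_of_El {R : Type} [Ring R] (I : AddSubgroup R) (a : R)
    (hI : ∀ x ∈ I, x ∈ AddSubgroup.closure {x | ∃ y ∈ I, ∃ z ∈ I, x = y * a * z})
    (N : Subgroup (GI I))
    (hN : ∀ (i j : Fin 3) (h : i ≠ j), ∀ y ∈ I, ∀ z ∈ I, ∃ u ∈ N,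
      (u : (Matrix (Fin 3) (Fin 3) R)ˣ) = El i j h (y * a * z)) :
    N = ⊤ := by
  have h1 : ∀ (i j : Fin 3) (h : i ≠ j), ∀ x ∈ AddSubgroup.closure
      {x | ∃ y ∈ I, ∃ z ∈ I, x = y * a * z}, El i j h x ∈ N.map (GI I).subtype := by
    intro i j h x hx
    induction hx using AddSubgroup.closure_induction with
    | mem x hx =>
      obtain ⟨y, hy, z, hz, rfl⟩ := hx
      obtain ⟨u, hu, hu'⟩ := hN i j h y hy z hz
      exact ⟨u, hu, hu'⟩
    | zero => rw [El_zero]; exact Subgroup.one_mem _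
    | add x y _ _ ihx ihy => rw [El_add]; exact Subgroup.mul_mem _ ihx ihy
    | neg x _ ih => rw [El_neg]; exact Subgroup.inv_mem _ ih
  have h2 : GI I ≤ N.map (GI I).subtype := by
    refine (Subgroup.closure_le _).mpr ?_
    rintro u ⟨i, j, h, x, hx, rfl⟩
    exact h1 i j h x (hI x hx)
  rw [eq_top_iff]
  intro g _
  obtain ⟨u, hu, hu'⟩ := h2 g.2
  have : u = g := Subtype.ext hu'
  rwa [← this]

/-- Module NORM (b). A normal subgroup of `GI I` which contains all `1 + a e_ij` is everything. -/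
theorem GI_normal {R : Type} [Ring R] (I : AddSubgroup R) (a : R) (haI : a ∈ I)
    (hI : ∀ x ∈ I, x ∈ AddSubgroup.closure {x | ∃ y ∈ I, ∃ z ∈ I, x = y * a * z})
    (N : Subgroup (GI I)) [N.Normal]
    (hN : ∀ (i j : Fin 3) (h : i ≠ j), ∃ u ∈ N, (u : (Matrix (Fin 3) (Fin 3) R)ˣ) = El i j h a) :
    N = ⊤ := by
  have hcomm : ∀ u ∈ N, ∀ v : GI I, u * v * u⁻¹ * v⁻¹ ∈ N := by
    intro u hu v
    have : u * v * u⁻¹ * v⁻¹ = u * (v * u⁻¹ * v⁻¹) := by group
    rw [this]
    exact N.mul_mem hu (Subgroup.Normal.conj_mem inferInstance _ (N.inv_mem hu) v)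
  have hcomm' : ∀ u ∈ N, ∀ v : GI I, v * u * v⁻¹ * u⁻¹ ∈ N := by
    intro u hu v
    exact N.mul_mem (Subgroup.Normal.conj_mem inferInstance _ hu v) (N.inv_mem hu)
  have haz : ∀ (i j : Fin 3) (h : i ≠ j), ∀ z ∈ I, ∃ u ∈ N,
      (u : (Matrix (Fin 3) (Fin 3) R)ˣ) = El i j h (a * z) := by
    intro i j h z hz
    obtain ⟨k, hik, hkj⟩ := third i j h
    obtain ⟨u, hu, hu'⟩ := hN i k hik
    refine ⟨_, hcomm u hu ⟨El k j hkj z, El_mem I k j hkj z hz⟩, ?_⟩
    push_cast
    rw [hu']
    exact El_comm i j k hik hkj h a z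
  refine top_of_El I a hI N ?_
  intro i j h y hy z hz
  obtain ⟨k, hik, hkj⟩ := third i j h
  obtain ⟨u, hu, hu'⟩ := haz k j hkj z hz
  refine ⟨_, hcomm' u hu ⟨El i k hik y, El_mem I i k hik y hy⟩, ?_⟩
  push_cast
  rw [hu', mul_assoc y a z]
  exact El_comm i j k hik hkj h y (a * z)

/-- Module NORM (c). A normal subgroup of `GI I` which contains all commutators is everything. -/
theorem GI_perfect {R : Type} [Ring R] (I : AddSubgroup R) (a : R) (haI : a ∈ I)
    (hI : ∀ x ∈ I, x ∈ AddSubgroup.closure {x | ∃ y ∈ I, ∃ z ∈ I, x = y * a * z})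
    (N : Subgroup (GI I)) [N.Normal]
    (hN : ∀ x y : GI I, x * y * x⁻¹ * y⁻¹ ∈ N) :
    N = ⊤ := by
  have haz : ∀ (i j : Fin 3) (h : i ≠ j), ∀ z ∈ I, El i j h (a * z) ∈ GI I := by
    intro i j h z hz
    obtain ⟨k, hik, hkj⟩ := third i j h
    rw [← El_comm i j k hik hkj h a z]
    exact Subgroup.mul_mem _ (Subgroup.mul_mem _ (Subgroup.mul_mem _ (El_mem I i k hik a haI)
      (El_mem I k j hkj z hz)) (Subgroup.inv_mem _ (El_mem I i k hik a haI)))
      (Subgroup.inv_mem _ (El_mem I k j hkj z hz))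
  refine top_of_El I a hI N ?_
  intro i j h y hy z hz
  obtain ⟨k, hik, hkj⟩ := third i j h
  refine ⟨_, hN ⟨El i k hik y, El_mem I i k hik y hy⟩ ⟨El k j hkj (a * z), haz k j hkj z hz⟩, ?_⟩
  push_cast
  rw [mul_assoc y a z]
  exact El_comm i j k hik hkj h y (a * z)

end Pool.Agent.BinFin
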