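import Mathlib

set_option autoImplicit false

namespace Pool.Agent.BinFin

theorem finite_subset_chain {G : Type} [Group G] (c : Set (Subgroup G)) (hne : c.Nonempty)
    (hchain : IsChain (· ≤ ·) c) (F : Set G) (hF : F.Finite)
    (h : ∀ f ∈ F, ∃ K ∈ c, f ∈ K) : ∃ K ∈ c, F ⊆ (K : Set G) := by
  induction F, hF using Set.Finite.induction_on with
  | empty => exact ⟨hne.some, hne.some_mem, by simp⟩
  | @insert a s _ _ ih =>
    obtain ⟨K, hK, hs⟩ := ih (fun f hf => h f (Set.mem_insert_of_mem _ hf))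
    obtain ⟨L, hL, ha⟩ := h a (Set.mem_insert _ _)
    rcases hchain.total hK hL with hle | hle
    · refine ⟨L, hL, ?_⟩
      rintro x (rfl | hx)
      · exact ha
      · exact hle (hs hx)
    · refine ⟨K, hK, ?_⟩
      rintro x (rfl | hx)
      · exact hle ha
      · exact hs hx

/-- Module ZORN. A nontrivial perfect binary finite 2-group which is the normal closure of a finite
set has a quotient which is a counterexample to the statement of the problem. -/
theorem zorn_part (G : Type) [Group G] [Nontrivial G] (F : Set G) (hF : F.Finite)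
    (hFn : ∀ N : Subgroup G, N.Normal → F ⊆ N → N = ⊤)
    (hperf : ∀ N : Subgroup G, N.Normal → (∀ x y : G, x * y * x⁻¹ * y⁻¹ ∈ N) → N = ⊤)
    (h2 : IsPGroup 2 G)
    (hbin : ∀ a b : G, (Subgroup.closure ({a, b} : Set G) : Set G).Finite) :
    ¬ (∀ (G : Type) [Group G], IsPGroup 2 G →
      (∀ a b : G, (Subgroup.closure ({a, b} : Set G) : Set G).Finite) →
      2 < ENat.card G →
      ∃ N : Subgroup G, N.Normal ∧ N ≠ ⊥ ∧ N ≠ ⊤) := by
  intro H
  -- a maximal proper normal subgroup
  obtain ⟨N, -, hN⟩ := zorn_le_nonempty₀ {N : Subgroup G | N.Normal ∧ N ≠ ⊤} (by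
    intro c hc hchain x hx
    refine ⟨sSup c, ⟨?_, ?_⟩, fun z hz => le_sSup hz⟩
    · constructor
      intro n hn g
      rw [Subgroup.mem_sSup_of_directedOn ⟨x, hx⟩ hchain.directedOn] at hn ⊢
      obtain ⟨K, hK, hnK⟩ := hn
      exact ⟨K, hK, (hc hK).1.conj_mem n hnK g⟩
    · intro htop
      obtain ⟨K, hK, hFK⟩ := finite_subset_chain c ⟨x, hx⟩ hchain F hF (by
        intro f _
        have : f ∈ sSup c := by rw [htop]; trivial
        rwa [Subgroup.mem_sSup_of_directedOn ⟨x, hx⟩ hchain.directedOn] at this)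
      exact (hc hK).2 (hFn K (hc hK).1 hFK)) ⊥ ⟨inferInstance, bot_ne_top⟩
  obtain ⟨⟨hNn, hNt⟩, hmax⟩ := hN
  have := hNn
  have hQ2 : IsPGroup 2 (G ⧸ N) := h2.to_quotient N
  have hQb : ∀ a b : G ⧸ N,
      (Subgroup.closure ({a, b} : Set (G ⧸ N)) : Set (G ⧸ N)).Finite := by
    intro a b
    obtain ⟨a, rfl⟩ := QuotientGroup.mk_surjective a
    obtain ⟨b, rfl⟩ := QuotientGroup.mk_surjective b
    have h3 : Subgroup.closure ({(a : G ⧸ N), (b : G ⧸ N)} : Set (G ⧸ N)) =
        (Subgroup.closure ({a, b} : Set G)).map (QuotientGroup.mk' N) := by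
      rw [MonoidHom.map_closure]
      congr 1
      simp [Set.image_insert_eq]
    rw [h3, Subgroup.coe_map]
    exact (hbin a b).image _
  have hQc : 2 < ENat.card (G ⧸ N) := by
    by_contra hle
    push Not at hle
    apply hNt
    apply hperf N hNn
    intro x y
    -- a group with at most two elements is commutative
    have hfin : Finite (G ⧸ N) := by
      rw [← ENat.card_lt_top]
      exact lt_of_le_of_lt hle (by decide)
    have hcard : Nat.card (G ⧸ N) ≤ 2 := by
      rw [ENat.card_eq_coe_natCard] at hle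
      exact_mod_cast hle
    have hpos : 0 < Nat.card (G ⧸ N) := Nat.card_pos
    have hcomm : ∀ u v : G ⧸ N, u * v = v * u := by
      intro u v
      have : IsCyclic (G ⧸ N) := by
        interval_cases hc : Nat.card (G ⧸ N)
        · exact isCyclic_of_card_dvd_prime (p := 2) (by rw [hc]; norm_num)
        · have : Fact (Nat.Prime 2) := ⟨Nat.prime_two⟩
          exact isCyclic_of_prime_card hc
      exact (IsCyclic.commGroup.mul_comm u v)
    rw [← QuotientGroup.eq_one_iff]
    have h4 : ((x * y * x⁻¹ * y⁻¹ : G) : G ⧸ N) =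
        (x : G ⧸ N) * (y : G ⧸ N) * (x : G ⧸ N)⁻¹ * (y : G ⧸ N)⁻¹ := rfl
    rw [h4, hcomm (x : G ⧸ N) y]
    group
  obtain ⟨M, hMn, hMb, hMt⟩ := H (G ⧸ N) hQ2 hQb hQc
  have hcn : (M.comap (QuotientGroup.mk' N)).Normal := hMn.comap _
  have hle : N ≤ M.comap (QuotientGroup.mk' N) := by
    intro x hx
    rw [Subgroup.mem_comap]
    have : (QuotientGroup.mk' N) x = 1 := by simpa using hx
    rw [this]; exact M.one_mem
  have hne : M.comap (QuotientGroup.mk' N) ≠ ⊤ := by
    intro htop
    apply hMt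
    rw [eq_top_iff]
    intro q _
    obtain ⟨g, rfl⟩ := QuotientGroup.mk'_surjective N q
    have : g ∈ M.comap (QuotientGroup.mk' N) := by rw [htop]; trivial
    exact this
  have hge := hmax ⟨hcn, hne⟩ hle
  apply hMb
  rw [eq_bot_iff]
  intro q hq
  obtain ⟨g, rfl⟩ := QuotientGroup.mk'_surjective N q
  have hg : g ∈ M.comap (QuotientGroup.mk' N) := hq
  have := hge hg
  rw [Subgroup.mem_bot]
  simpa using this

end Pool.Agent.BinFin
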