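import Pool.Agent.Work.MP_73176e_al.Defs
import Pool.Agent.Work.MP_73176e_al.FinPart
import Pool.Agent.Work.MP_73176e_al.NormPart
import Pool.Agent.Work.MP_73176e_al.ZornPart

set_option autoImplicit false

namespace Pool.Agent.BinFin

theorem evP_nil {p : ℕ} {R : Type} [Ring R] (ev : Ltr p → R) : evP ev ([] : Pol p) = 0 := by
  simp [evP]

theorem evP_append {p : ℕ} {R : Type} [Ring R] (ev : Ltr p → R) (s t : Pol p) :
    evP ev (s ++ t) = evP ev s + evP ev t := by
  simp [evP]

theorem evP_cons {p : ℕ} {R : Type} [Ring R] (ev : Ltr p → R) (w : Wd p) (t : Pol p) :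
    evP ev (w :: t) = evW ev w + evP ev t := by
  simp [evP]

theorem evW_append {p : ℕ} {R : Type} [Ring R] (ev : Ltr p → R) (v w : Wd p) :
    evW ev (v ++ w) = evW ev v * evW ev w := by
  simp [evW]

/-- product of polynomials -/
def polMul {p : ℕ} (s t : Pol p) : Pol p := s.flatMap (fun v => t.map (fun w => v ++ w))

theorem evP_wmul {p : ℕ} {R : Type} [Ring R] (ev : Ltr p → R) (v : Wd p) (t : Pol p) :
    evP ev (t.map (fun w => v ++ w)) = evW ev v * evP ev t := by
  induction t with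
  | nil => simp [evP]
  | cons w t ih => rw [List.map_cons, evP_cons, evP_cons, ih, evW_append, mul_add]

theorem evP_polMul {p : ℕ} {R : Type} [Ring R] (ev : Ltr p → R) (s t : Pol p) :
    evP ev (polMul s t) = evP ev s * evP ev t := by
  induction s with
  | nil => simp [polMul, evP]
  | cons v s ih =>
    have : polMul (v :: s) t = t.map (fun w => v ++ w) ++ polMul s t := by
      simp [polMul]
    rw [this, evP_append, evP_wmul, evP_cons, ih, add_mul]

theorem CF_polMul {p : ℕ} (s t : Pol p) (hs : CF s) : CF (polMul s t) := by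
  intro w hw
  simp only [polMul, List.mem_flatMap, List.mem_map] at hw
  obtain ⟨v, hv, u, _, rfl⟩ := hw
  have := hs v hv
  simp [this]

theorem exists_pol {p : ℕ} {R : Type} [Ring R] (h2 : (2 : R) = 0) (ev : Ltr p → R)
    (x : R) (hx : x ∈ NonUnitalSubring.closure (Set.range ev)) :
    ∃ t : Pol p, CF t ∧ evP ev t = x := by
  induction hx using NonUnitalSubring.closure_induction with
  | mem x hx =>
    obtain ⟨l, rfl⟩ := hx
    refine ⟨[[l]], ?_, by simp [evP, evW]⟩
    intro w hw
    simp at hw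
    simp [hw]
  | zero => exact ⟨[], by intro w hw; simp at hw, by simp [evP]⟩
  | add x y _ _ hx hy =>
    obtain ⟨s, hs, rfl⟩ := hx
    obtain ⟨t, ht, rfl⟩ := hy
    refine ⟨s ++ t, ?_, evP_append _ _ _⟩
    intro w hw
    rcases List.mem_append.mp hw with h | h
    · exact hs w h
    · exact ht w h
  | neg x _ hx =>
    obtain ⟨s, hs, rfl⟩ := hx
    refine ⟨s, hs, ?_⟩
    rw [eq_neg_iff_add_eq_zero, ← two_mul, h2, zero_mul]
  | mul x y _ _ hx hy =>
    obtain ⟨s, hs, rfl⟩ := hx
    obtain ⟨t, ht, rfl⟩ := hy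
    exact ⟨polMul s t, CF_polMul s t hs, evP_polMul _ _ _⟩

/-- Module GRP. The ring theoretic statement gives the group (uses FIN, NORM, ZORN). -/
theorem grp_part (H : RLst) :
    ¬ (∀ (G : Type) [Group G], IsPGroup 2 G →
      (∀ a b : G, (Subgroup.closure ({a, b} : Set G) : Set G).Finite) →
      2 < ENat.card G →
      ∃ N : Subgroup G, N.Normal ∧ N ≠ ⊥ ∧ N ≠ ⊤) := by
  classical
  obtain ⟨p, R, _, ev, h2, ha0, hrel, hloc⟩ := H
  set A : NonUnitalSubring R := NonUnitalSubring.closure (Set.range ev) with hA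
  set a : R := ev .a with ha
  have haA : a ∈ A := NonUnitalSubring.subset_closure ⟨_, rfl⟩
  have hUA : ∀ i, ev (.U i) ∈ A := fun i => NonUnitalSubring.subset_closure ⟨_, rfl⟩
  have hDA : ∀ i, ev (.D i) ∈ A := fun i => NonUnitalSubring.subset_closure ⟨_, rfl⟩
  -- local nilpotence
  have hN : ∀ T : Finset R, T.card ≤ 18 → (∀ t ∈ T, t ∈ A) →
      ∃ N : ℕ, ∀ ts : List R, (∀ t ∈ ts, t ∈ T) → N ≤ ts.length → ts.prod = 0 := by
    intro T hT hTA
    have hch : ∀ t : R, ∃ q : Pol p, CF q ∧ (t ∈ T → evP ev q = t) := by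
      intro t
      by_cases ht : t ∈ T
      · obtain ⟨q, h3, h4⟩ := exists_pol h2 ev t (hTA t ht)
        exact ⟨q, h3, fun _ => h4⟩
      · exact ⟨[], by intro w hw; simp at hw, fun h => absurd h ht⟩
    choose q hqc hqe using hch
    obtain ⟨N, hN⟩ := hloc (T.toList.map q) ⟨by simpa using hT, by
      intro t ht
      obtain ⟨x, _, rfl⟩ := List.mem_map.mp ht
      exact hqc x⟩
    refine ⟨N, fun ts hts hlen => ?_⟩
    have h3 := hN (ts.map q) (by
      intro t ht
      obtain ⟨x, hx, rfl⟩ := List.mem_map.mp ht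
      exact List.mem_map.mpr ⟨x, Finset.mem_toList.mpr (hts x hx), rfl⟩) (by simpa using hlen)
    have h4 : (ts.map q).map (evP ev) = ts := by
      rw [List.map_map]
      conv_rhs => rw [← List.map_id ts]
      apply List.map_congr_left
      intro x hx
      exact hqe x (hts x hx)
    rwa [h4] at h3
  -- the ideal
  let C : Set R := {u | ∀ x ∈ A, u * x ∈ A ∧ x * u ∈ A}
  have hC1 : (1 : R) ∈ C := fun x hx => by simpa using hx
  have hCA : ∀ u ∈ A, u ∈ C := fun u hu x hx => ⟨A.mul_mem hu hx, A.mul_mem hx hu⟩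
  have hCmul : ∀ u ∈ C, ∀ v ∈ C, u * v ∈ C := by
    intro u hu v hv x hx
    constructor
    · rw [mul_assoc]; exact (hu _ (hv x hx).1).1
    · rw [← mul_assoc]; exact (hv _ (hu x hx).2).2
  set I : AddSubgroup R := AddSubgroup.closure {x | ∃ u ∈ C, ∃ v ∈ C, x = u * a * v} with hI
  have hmemI : ∀ u ∈ C, ∀ v ∈ C, u * a * v ∈ I := fun u hu v hv =>
    AddSubgroup.subset_closure ⟨u, hu, v, hv, rfl⟩
  have haI : a ∈ I := by simpa using hmemI 1 hC1 1 hC1
  have hIA : ∀ x ∈ I, x ∈ A := by
    intro x hx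
    induction hx using AddSubgroup.closure_induction with
    | mem x hx =>
      obtain ⟨u, hu, v, hv, rfl⟩ := hx
      exact (hv _ (hu a haA).1).2
    | zero => exact A.zero_mem
    | add x y _ _ hx hy => exact A.add_mem hx hy
    | neg x _ hx => exact A.neg_mem hx
  have hIcl : ∀ x ∈ I, x ∈ AddSubgroup.closure {x | ∃ y ∈ I, ∃ z ∈ I, x = y * a * z} := by
    intro x hx
    induction hx using AddSubgroup.closure_induction with
    | mem x hx =>
      obtain ⟨u, hu, v, hv, rfl⟩ := hx
      have h5 : u * a * v = ∑ i, ∑ j, (u * ev (.U i) * a * ev (.U j)) * a *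
          (a * (ev (.D j) * ev (.D i) * v)) := by
        have h6 : a = ∑ i, ∑ j, ev (.U i) * a * (ev (.U j) * a * a * ev (.D j)) * ev (.D i) := by
          have h7 : ∀ i, ev (.U i) * a * (∑ j, ev (.U j) * a * a * ev (.D j)) * ev (.D i) =
              ∑ j, ev (.U i) * a * (ev (.U j) * a * a * ev (.D j)) * ev (.D i) := by
            intro i
            rw [Finset.mul_sum, Finset.sum_mul]
          calc a = ∑ i, ev (.U i) * a * a * ev (.D i) := hrel
            _ = ∑ i, ev (.U i) * a * (∑ j, ev (.U j) * a * a * ev (.D j)) * ev (.D i) := by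
                rw [← hrel]; exact hrel
            _ = _ := Finset.sum_congr rfl (fun i _ => h7 i)
        conv_lhs => rw [h6]
        rw [Finset.mul_sum, Finset.sum_mul]
        refine Finset.sum_congr rfl fun i _ => ?_
        rw [Finset.mul_sum, Finset.sum_mul]
        refine Finset.sum_congr rfl fun j _ => ?_
        noncomm_ring
      rw [h5]
      refine AddSubgroup.sum_mem _ fun i _ => AddSubgroup.sum_mem _ fun j _ => ?_
      refine AddSubgroup.subset_closure ⟨_, ?_, _, ?_, rfl⟩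
      · exact hmemI _ (hCmul _ hu _ (hCA _ (hUA i))) _ (hCA _ (hUA j))
      · have := hmemI 1 hC1 (ev (.D j) * ev (.D i) * v)
          (hCmul _ (hCmul _ (hCA _ (hDA j)) _ (hCA _ (hDA i))) _ hv)
        rwa [one_mul] at this
    | zero => exact AddSubgroup.zero_mem _
    | add x y _ _ hx hy => exact AddSubgroup.add_mem _ hx hy
    | neg x _ hx => exact AddSubgroup.neg_mem _ hx
  -- the group
  have hent : ∀ g : GI I, ∀ i j, (((g : (Matrix (Fin 3) (Fin 3) R)ˣ) :
      Matrix (Fin 3) (Fin 3) R) - 1) i j ∈ A := fun g i j => GI_entries A I hIA g.1 g.2 i j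
  have hne : Nontrivial (GI I) := by
    refine ⟨⟨⟨El 0 1 (by decide) a, Subgroup.subset_closure ⟨0, 1, by decide, a, haI, rfl⟩⟩, 1, ?_⟩⟩
    intro h
    have h8 := congrArg (fun g : GI I => (((g : (Matrix (Fin 3) (Fin 3) R)ˣ) :
      Matrix (Fin 3) (Fin 3) R)) 0 1) h
    simp [El] at h8
    exact ha0 h8
  have hp : IsPGroup 2 (GI I) := by
    intro g
    obtain ⟨-, m, hm⟩ := fin_part A h2 hN g.1 g.1 (hent g) (hent g)
    exact ⟨m, Subtype.ext (by push_cast; exact hm)⟩
  have hb : ∀ g h : GI I, (Subgroup.closure ({g, h} : Set (GI I)) : Set (GI I)).Finite := by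
    intro g h
    obtain ⟨hf, -⟩ := fin_part A h2 hN g.1 h.1 (hent g) (hent h)
    have h9 : (Subgroup.closure ({g, h} : Set (GI I))).map (GI I).subtype =
        Subgroup.closure ({(g : (Matrix (Fin 3) (Fin 3) R)ˣ), (h : (Matrix (Fin 3) (Fin 3) R)ˣ)} :
          Set (Matrix (Fin 3) (Fin 3) R)ˣ) := by
      rw [MonoidHom.map_closure]
      congr 1
      simp [Set.image_insert_eq]
    rw [← h9, Subgroup.coe_map] at hf
    exact hf.of_finite_image (Subtype.val_injective.injOn)
  refine zorn_part (GI I)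
    (Set.range fun q : {q : Fin 3 × Fin 3 // q.1 ≠ q.2} =>
      (⟨El q.1.1 q.1.2 q.2 a, Subgroup.subset_closure ⟨_, _, q.2, a, haI, rfl⟩⟩ : GI I))
    (Set.finite_range _) ?_ ?_ hp hb
  · intro N hNn hsub
    have := hNn
    refine GI_normal I a haI hIcl N ?_
    intro i j h
    exact ⟨_, hsub ⟨⟨(i, j), h⟩, rfl⟩, rfl⟩
  · intro N hNn hc
    have := hNn
    exact GI_perfect I a haI hIcl N hc

end Pool.Agent.BinFin
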