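import Mathlib

/-!
Definitions for the construction of a simple binary finite 2-group (MP_73176e_al).

Letters, words (lists of letters), polynomials (lists of words, meant as sums), blocks
(finite dimensional modules with barriers) and the list of properties of a good block.
-/

set_option autoImplicit false

namespace Pool.Agent.BinFin

/-- the letters: one letter `a` and `p` letters `D i`, `p` letters `U i` -/
inductive Ltr (p : ℕ) : Type
  | a : Ltr p
  | D : Fin p → Ltr p
  | U : Fin p → Ltr p

/-- words -/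
abbrev Wd (p : ℕ) : Type := List (Ltr p)

/-- polynomials: sums of words -/
abbrev Pol (p : ℕ) : Type := List (Wd p)

/-- value of a word -/
def evW {p : ℕ} {R : Type} [Ring R] (ev : Ltr p → R) (w : Wd p) : R := (w.map ev).prod

/-- value of a polynomial -/
def evP {p : ℕ} {R : Type} [Ring R] (ev : Ltr p → R) (t : Pol p) : R := (t.map (evW ev)).sum

/-- constant free polynomials -/
def CF {p : ℕ} (t : Pol p) : Prop := ∀ w ∈ t, w ≠ []

/-- lists of at most 18 constant free polynomials -/
def OKT {p : ℕ} (T : List (Pol p)) : Prop := T.length ≤ 18 ∧ ∀ t ∈ T, CF t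

instance countableLtr (p : ℕ) : Countable (Ltr p) := by
  refine Function.Injective.countable (β := Option (Fin p ⊕ Fin p))
    (f := fun l => match l with
      | Ltr.a => none
      | Ltr.D i => some (Sum.inl i)
      | Ltr.U i => some (Sum.inr i)) ?_
  intro x y h
  cases x <;> cases y <;> simp_all

/-- an enumeration of all lists of polynomials -/
noncomputable def enumT (p : ℕ) : ℕ → List (Pol p) :=
  Classical.choose (exists_surjective_nat (List (Pol p)))

theorem enumT_surj (p : ℕ) : Function.Surjective (enumT p) :=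
  Classical.choose_spec (exists_surjective_nat (List (Pol p)))

open Classical in
/-- the polynomials which have to commute with the barrier `z` -/
noncomputable def Tz (p z : ℕ) : List (Pol p) :=
  if OKT (enumT p (padicValNat 2 z)) then enumT p (padicValNat 2 z) else []

/-- the nilpotency bound for a gap -/
def Mb : ℕ → ℕ
  | 0 => 1
  | g + 1 => 2 * Mb g + 3

/-- blocks: finite dimensional modules over the letters with entry `e`, exit `f` and barriers `pr z` -/
structure Blk (K : Type) [Field K] (p : ℕ) where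
  w : ℕ
  B : Type
  [acg : AddCommGroup B]
  [mod : Module K B]
  [fin : Module.Finite K B]
  op : Ltr p → Module.End K B
  e : (Fin w → K) →ₗ[K] B
  f : B →ₗ[K] (Fin w → K)
  pr : ℕ → Module.End K B

attribute [instance] Blk.acg Blk.mod Blk.fin

/-- the properties of a good block of height `h` -/
structure Good {K : Type} [Field K] {p : ℕ} (h : ℕ) (b : Blk K p) : Prop where
  wpos : 1 ≤ b.w
  faae : ∀ x, b.f (b.op .a (b.op .a (b.e x))) = x
  Uaae : ∀ i x, b.op (.U i) (b.op .a (b.op .a (b.e x))) = 0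
  faaD : ∀ i x, b.f (b.op .a (b.op .a (b.op (.D i) x))) = 0
  fpr : ∀ z < h, ∀ x, b.f (b.pr z x) = 0
  prae : ∀ z < h, ∀ x, b.pr z (b.op .a (b.e x)) = 0
  pr0 : b.pr 0 = 0
  prtop : ∀ z, h ≤ z → b.pr z = 1
  prmul : ∀ z z', b.pr z * b.pr z' = b.pr (min z z')
  comm : ∀ z, ∀ t ∈ Tz p z, evP b.op t * b.pr z = b.pr z * evP b.op t
  rel : ∀ x, b.op .a (x - b.pr 1 x) =
    ∑ i, b.op (.U i) (b.op .a (b.op .a (b.op (.D i) (x - b.pr 1 x))))
  grow : ∀ l z x, b.pr (z + 1) (b.op l (b.pr z x)) = b.op l (b.pr z x)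
  nil : ∀ z, ∀ ts : List (Pol p), (∀ t ∈ ts, CF t) → Mb (h - z) ≤ ts.length →
    (ts.map (fun t => (1 - b.pr z) * evP b.op t)).prod = 0
  dim : ∑ z ∈ Finset.range (h + 1), Module.finrank K (LinearMap.range (b.pr z)) ≤ 8 * b.w
  locnil : ∀ n, OKT (enumT p n) → ∀ ts : List (Pol p), (∀ t ∈ ts, t ∈ enumT p n) →
    Mb (2 ^ (n + 1)) ≤ ts.length → (ts.map (evP b.op)).prod = 0

/-- the ring theoretic statement -/
def RLst : Prop :=
  ∃ (p : ℕ) (R : Type) (_ : Ring R) (ev : Ltr p → R),
    (2 : R) = 0 ∧ ev .a ≠ 0 ∧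
    ev .a = ∑ i, ev (.U i) * ev .a * ev .a * ev (.D i) ∧
    ∀ T : List (Pol p), OKT T → ∃ N : ℕ, ∀ ts : List (Pol p), (∀ t ∈ ts, t ∈ T) →
      N ≤ ts.length → (ts.map (evP ev)).prod = 0

end Pool.Agent.BinFin
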