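import Pool.Agent.Work.MP_73176e_al.Defs

/-!
The extension of a block of height `h` to a block of height `h + 1`.
-/

set_option autoImplicit false

namespace Pool.Agent.BinFin

variable {K : Type} [Field K] {p : ℕ}

/-- the space of `p`-tuples of entry vectors -/
abbrev Wp (b : Blk K p) : Type := Fin p → Fin b.w → K

/-- entering the block with the letter `D i` -/
def ent (b : Blk K p) : Ltr p → (Wp b →ₗ[K] b.B)
  | .D i => b.e ∘ₗ LinearMap.proj i
  | _ => 0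

/-- leaving the block with the letter `U i` -/
def exi (b : Blk K p) : Ltr p → (b.B →ₗ[K] Wp b)
  | .U i => LinearMap.single K (fun _ : Fin p => Fin b.w → K) i ∘ₗ b.f
  | _ => 0

/-- passing by the block with the letter `a` -/
def thr (b : Blk K p) : Ltr p → (Wp b →ₗ[K] Wp b)
  | .a => LinearMap.id
  | _ => 0

/-- word maps: in -/
def Nw (b : Blk K p) : Wd p → (Wp b →ₗ[K] b.B)
  | [] => 0
  | l :: w => b.op l ∘ₗ Nw b w + (match w with | [] => ent b l | _ :: _ => 0)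

/-- word maps: out -/
def Mw (b : Blk K p) : Wd p → (b.B →ₗ[K] Wp b)
  | [] => 0
  | l :: w => exi b l ∘ₗ evW b.op w

/-- word maps: through -/
def Pw (b : Blk K p) : Wd p → (Wp b →ₗ[K] Wp b)
  | [] => 0
  | l :: w => exi b l ∘ₗ Nw b w + (match w with | [] => thr b l | _ :: _ => 0)

/-- word maps: out, `Θ`, in -/
def Qw (b : Blk K p) (Θ : Wp b →ₗ[K] Wp b) : Wd p → (b.B →ₗ[K] b.B)
  | [] => 0
  | l :: w => b.op l ∘ₗ Qw b Θ w + ent b l ∘ₗ Θ ∘ₗ Mw b w

/-- word maps: out, `Θ`, through -/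
def Rw (b : Blk K p) (Θ : Wp b →ₗ[K] Wp b) : Wd p → (b.B →ₗ[K] Wp b)
  | [] => 0
  | l :: w => exi b l ∘ₗ Qw b Θ w + thr b l ∘ₗ Θ ∘ₗ Mw b w

/-- word maps: through, `Θ`, in -/
def Sw (b : Blk K p) (Θ : Wp b →ₗ[K] Wp b) : Wd p → (Wp b →ₗ[K] b.B)
  | [] => 0
  | l :: w => b.op l ∘ₗ Sw b Θ w + ent b l ∘ₗ Θ ∘ₗ Pw b w

/-- the same maps for polynomials -/
def Np (b : Blk K p) (t : Pol p) : Wp b →ₗ[K] b.B := (t.map (Nw b)).sum
def Mp (b : Blk K p) (t : Pol p) : b.B →ₗ[K] Wp b := (t.map (Mw b)).sum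
def Pp (b : Blk K p) (t : Pol p) : Wp b →ₗ[K] Wp b := (t.map (Pw b)).sum
def Qp (b : Blk K p) (Θ : Wp b →ₗ[K] Wp b) (t : Pol p) : b.B →ₗ[K] b.B := (t.map (Qw b Θ)).sum
def Rp (b : Blk K p) (Θ : Wp b →ₗ[K] Wp b) (t : Pol p) : b.B →ₗ[K] Wp b := (t.map (Rw b Θ)).sum
def Sp (b : Blk K p) (Θ : Wp b →ₗ[K] Wp b) (t : Pol p) : Wp b →ₗ[K] b.B := (t.map (Sw b Θ)).sum

/-- the space of the extended block -/
abbrev ES (b : Blk K p) (w' : ℕ) : Type :=
  (Fin w' → K) × Wp b × (Fin w' → K) × b.B × b.B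

/-- the letters on the extended block -/
def opE (b : Blk K p) (w' : ℕ) (X0 : (Fin w' → K) →ₗ[K] Wp b) (Y0 X1 : Wp b →ₗ[K] Wp b)
    (Y1 : Wp b →ₗ[K] (Fin w' → K)) (l : Ltr p) : Module.End K (ES b w') where
  toFun x :=
    ((0 : Fin w' → K),
     Y0 (thr b l (X0 x.1)) + Y0 (exi b l x.2.2.2.1),
     Y1 (thr b l (X1 x.2.1)) + Y1 (exi b l x.2.2.2.2),
     b.op l x.2.2.2.1 + ent b l (X0 x.1),
     b.op l x.2.2.2.2 + ent b l (X1 x.2.1))
  map_add' x y := by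
    ext1
    · simp
    ext1
    · simp; abel
    ext1
    · simp; abel
    ext1
    · simp; abel
    · simp; abel
  map_smul' c x := by
    ext1
    · simp
    ext1
    · simp
    ext1
    · simp
    ext1
    · simp
    · simp

/-- the barriers of the extended block -/
noncomputable def prE (b : Blk K p) (w' h z : ℕ) : Module.End K (ES b w') :=
  if z ≤ h then
    { toFun := fun x => (0, 0, 0, b.pr z x.2.2.2.1, b.pr z x.2.2.2.2)
      map_add' := fun x y => by simp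
      map_smul' := fun c x => by simp }
  else 1

/-- the extended block -/
noncomputable def ext (b : Blk K p) (h w' : ℕ) (X0 : (Fin w' → K) →ₗ[K] Wp b)
    (Y0 X1 : Wp b →ₗ[K] Wp b) (Y1 : Wp b →ₗ[K] (Fin w' → K)) : Blk K p where
  w := w'
  B := ES b w'
  op := opE b w' X0 Y0 X1 Y1
  e := LinearMap.inl K _ _
  f := LinearMap.fst K _ _ ∘ₗ LinearMap.snd K _ _ ∘ₗ LinearMap.snd K _ _
  pr := prE b w' h

end Pool.Agent.BinFin
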