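import Pool.Agent.Work.MP_73176e_al.ExtDef

set_option autoImplicit false

namespace Pool.Agent.BinFin

variable {K : Type} [Field K]

theorem dim_prE_le {p : ℕ} (b : Blk K p) (w' h z : ℕ) (hz : z ≤ h) :
    Module.finrank K (LinearMap.range (prE b w' h z)) ≤
      2 * Module.finrank K (LinearMap.range (b.pr z)) := by
  -- the injection of the two copies
  let J : (↥(LinearMap.range (b.pr z)) × ↥(LinearMap.range (b.pr z))) →ₗ[K] ES b w' :=
    { toFun := fun y => (0, 0, 0, y.1.1, y.2.1)
      map_add' := fun x y => by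
        refine Prod.ext ?_ (Prod.ext ?_ (Prod.ext ?_ (Prod.ext ?_ ?_))) <;> simp
      map_smul' := fun c x => by
        refine Prod.ext ?_ (Prod.ext ?_ (Prod.ext ?_ (Prod.ext ?_ ?_))) <;> simp }
  have h1 : LinearMap.range (prE b w' h z) ≤ LinearMap.range J := by
    rintro _ ⟨x, rfl⟩
    refine ⟨(⟨b.pr z x.2.2.2.1, ⟨_, rfl⟩⟩, ⟨b.pr z x.2.2.2.2, ⟨_, rfl⟩⟩), ?_⟩
    unfold prE
    rw [if_pos hz]
    rfl
  refine le_trans (Submodule.finrank_mono h1) ?_
  refine le_trans (LinearMap.finrank_range_le _) ?_
  rw [Module.finrank_prod]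
  omega

/-- Module DIM: the dimension field of `Good` for the extension. -/
theorem ext_dim (b : Blk K 4000) (h : ℕ) (hb : Good h b) :
    ∑ z ∈ Finset.range (h + 1 + 1),
      Module.finrank K (LinearMap.range (prE b (2000 * b.w) h z)) ≤ 8 * (2000 * b.w) := by
  rw [Finset.sum_range_succ]
  have h1 : ∑ z ∈ Finset.range (h + 1),
      Module.finrank K (LinearMap.range (prE b (2000 * b.w) h z)) ≤
      ∑ z ∈ Finset.range (h + 1), 2 * Module.finrank K (LinearMap.range (b.pr z)) := by
    refine Finset.sum_le_sum fun z hz => ?_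
    rw [Finset.mem_range] at hz
    exact dim_prE_le b _ h z (by omega)
  rw [← Finset.mul_sum] at h1
  have h2 : Module.finrank K (LinearMap.range (prE b (2000 * b.w) h (h + 1))) =
      2000 * b.w + 4000 * b.w + 2000 * b.w + 2 * Module.finrank K b.B := by
    have e1 : prE b (2000 * b.w) h (h + 1) = 1 := by
      unfold prE
      rw [if_neg (by omega)]
    rw [e1]
    have e2 : LinearMap.range (1 : Module.End K (ES b (2000 * b.w))) = ⊤ := LinearMap.range_id
    rw [e2, finrank_top]
    simp only [Module.finrank_prod, Module.finrank_fintype_fun_eq_card, Fintype.card_fin,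
      Module.finrank_pi_fintype, Finset.sum_const, Finset.card_univ, smul_eq_mul]
    ring
  have h3 : Module.finrank K b.B ≤
      ∑ z ∈ Finset.range (h + 1), Module.finrank K (LinearMap.range (b.pr z)) := by
    have e1 : Module.finrank K (LinearMap.range (b.pr h)) = Module.finrank K b.B := by
      rw [hb.prtop h (le_refl h)]
      have e2 : LinearMap.range (1 : Module.End K b.B) = ⊤ := LinearMap.range_id
      rw [e2, finrank_top]
    rw [← e1]
    exact Finset.single_le_sum (f := fun z => Module.finrank K (LinearMap.range (b.pr z)))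
      (fun _ _ => Nat.zero_le _) (Finset.mem_range.mpr (Nat.lt_succ_self h))
  have h4 := hb.dim
  rw [h2]
  omega

end Pool.Agent.BinFin
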