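import Pool.Agent.Work.MP_73176e_al.Defs

set_option autoImplicit false

namespace Pool.Agent.BinFin

/-- Module LOC (a): the closest barrier below height `h`. -/
theorem exists_barrier (n h : ℕ) (h1 : 1 ≤ h) :
    ∃ z, z < h ∧ h - z ≤ 2 ^ (n + 1) ∧ (z = 0 ∨ padicValNat 2 z = n) := by
  by_cases hh : h ≤ 2 ^ (n + 1)
  · exact ⟨0, h1, by simpa using hh, Or.inl rfl⟩
  · have hh' : 2 ^ (n + 1) < h := not_le.mp hh
    have e1 : 2 ^ (n + 1) = 2 * 2 ^ n := by ring
    have hp : 0 < 2 ^ n := by positivity
    set q := (h - 1 - 2 ^ n) / 2 ^ (n + 1) with hq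
    have hdm := Nat.div_add_mod (h - 1 - 2 ^ n) (2 ^ (n + 1))
    have hlt : (h - 1 - 2 ^ n) % 2 ^ (n + 1) < 2 ^ (n + 1) := Nat.mod_lt _ (by positivity)
    rw [← hq] at hdm
    refine ⟨2 ^ n * (2 * q + 1), ?_, ?_, Or.inr ?_⟩
    · have e2 : 2 ^ n * (2 * q + 1) = 2 ^ (n + 1) * q + 2 ^ n := by ring
      rw [e2]
      omega
    · have e2 : 2 ^ n * (2 * q + 1) = 2 ^ (n + 1) * q + 2 ^ n := by ring
      rw [e2]
      omega
    · rw [padicValNat.mul (by positivity) (by omega), padicValNat.prime_pow,
        padicValNat.eq_zero_of_not_dvd (by omega), add_zero]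

theorem Mb_mono {m n : ℕ} (h : m ≤ n) : Mb m ≤ Mb n := by
  have : Monotone Mb := by
    refine monotone_nat_of_le_succ ?_
    intro k
    show Mb k ≤ 2 * Mb k + 3
    omega
  exact this h

theorem Mb_pos (n : ℕ) : 1 ≤ Mb n := by
  cases n with
  | zero => exact le_refl 1
  | succ k => show 1 ≤ 2 * Mb k + 3; omega

/-- Module LOC (b): abstract form of the argument which gives local nilpotence. `P` is an idempotent
commuting with the operators `ev t`, `t ∈ T`; long products vanish on both sides. -/
theorem locnil_of_split {E ι : Type} [Ring E] (ev : ι → E) (P : E) (hP : P * P = P) (T : List ι)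
    (hcomm : ∀ t ∈ T, ev t * P = P * ev t) (ts : List ι) (hts : ∀ t ∈ ts, t ∈ T)
    (hne : ts ≠ [])
    (h1 : (ts.map (fun t => (1 - P) * ev t)).prod = 0)
    (h2 : (ts.map ev).prod * P = 0) : (ts.map ev).prod = 0 := by
  have hQ : (1 - P) * (1 - P) = 1 - P := by
    rw [mul_sub, sub_mul, sub_mul, hP]; simp
  have key : ∀ l : List ι, (∀ t ∈ l, t ∈ T) →
      (l.map ev).prod * P = P * (l.map ev).prod := by
    intro l
    induction l with
    | nil => intro _; simp
    | cons t l ih =>
      intro hl
      have h3 := ih (fun s hs => hl s (List.mem_cons_of_mem _ hs))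
      rw [List.map_cons, List.prod_cons, mul_assoc, h3, ← mul_assoc, hcomm t (hl t (by simp)),
        mul_assoc]
  have key2 : ∀ l : List ι, (∀ t ∈ l, t ∈ T) → l ≠ [] →
      (l.map (fun t => (1 - P) * ev t)).prod = (1 - P) * (l.map ev).prod := by
    intro l
    induction l with
    | nil => intro _ h; exact absurd rfl h
    | cons t l ih =>
      intro hl _
      by_cases hl0 : l = []
      · subst hl0; simp
      · have h3 := ih (fun s hs => hl s (List.mem_cons_of_mem _ hs)) hl0
        have h4 : ev t * (1 - P) = (1 - P) * ev t := by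
          rw [mul_sub, sub_mul, hcomm t (hl t (by simp))]; simp
        rw [List.map_cons, List.prod_cons, h3, List.map_cons, List.prod_cons]
        calc (1 - P) * ev t * ((1 - P) * (l.map ev).prod)
            = (1 - P) * (ev t * (1 - P)) * (l.map ev).prod := by simp only [mul_assoc]
          _ = (1 - P) * ((1 - P) * ev t) * (l.map ev).prod := by rw [h4]
          _ = ((1 - P) * (1 - P)) * (ev t * (l.map ev).prod) := by simp only [mul_assoc]
          _ = (1 - P) * (ev t * (l.map ev).prod) := by rw [hQ]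
  have h5 := key2 ts hts hne
  rw [h1] at h5
  have h6 := key ts hts
  rw [h2] at h6
  have h7 : (ts.map ev).prod = (1 - P) * (ts.map ev).prod + P * (ts.map ev).prod := by
    rw [sub_mul, one_mul]; abel
  rw [h7, ← h5, ← h6, add_zero]

end Pool.Agent.BinFin
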