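import Pool.Agent.Work.MP_73176e_al.ExtWord

set_option autoImplicit false

namespace Pool.Agent.BinFin

variable {K : Type} [Field K] {p : ℕ}

section
variable (b : Blk K p) (h : ℕ) (w' : ℕ) (X0 : (Fin w' → K) →ₗ[K] Wp b)
    (Y0 X1 : Wp b →ₗ[K] Wp b) (Y1 : Wp b →ₗ[K] (Fin w' → K)) (z : ℕ)

theorem nil_prE_apply (hz : z ≤ h) (y : ES b w') :
    (1 - prE b w' h z) y = (y.1, y.2.1, y.2.2.1, (1 - b.pr z) y.2.2.2.1,
      (1 - b.pr z) y.2.2.2.2) := by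
  unfold prE
  rw [if_pos hz]
  simp only [LinearMap.sub_apply, Module.End.one_apply, LinearMap.coe_mk, AddHom.coe_mk]
  refine Prod.ext ?_ (Prod.ext ?_ (Prod.ext ?_ (Prod.ext ?_ ?_))) <;> simp

/-- the factor -/
noncomputable def nilF (t : Pol p) : Module.End K (ES b w') :=
  (1 - prE b w' h z) * evP (opE b w' X0 Y0 X1 Y1) t

/-- the corresponding factor on the block -/
noncomputable def nilf (b : Blk K p) (z : ℕ) (t : Pol p) : Module.End K b.B :=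
  (1 - b.pr z) * evP b.op t

theorem nilF_apply (hz : z ≤ h) (t : Pol p) (x : ES b w') :
    nilF b h w' X0 Y0 X1 Y1 z t x =
      ((evP (opE b w' X0 Y0 X1 Y1) t x).1, (evP (opE b w' X0 Y0 X1 Y1) t x).2.1,
        (evP (opE b w' X0 Y0 X1 Y1) t x).2.2.1,
        (1 - b.pr z) (evP (opE b w' X0 Y0 X1 Y1) t x).2.2.2.1,
        (1 - b.pr z) (evP (opE b w' X0 Y0 X1 Y1) t x).2.2.2.2) := by
  unfold nilF
  rw [Module.End.mul_apply, nil_prE_apply b h w' z hz]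

theorem nilF_step0 (hz : z ≤ h) (t : Pol p) (ht : CF t) (x : ES b w') :
    (nilF b h w' X0 Y0 X1 Y1 z t x).1 = 0 := by
  rw [nilF_apply b h w' X0 Y0 X1 Y1 z hz]
  exact evP_s0 b w' X0 Y0 X1 Y1 t ht x

theorem nilF_b0 (hz : z ≤ h) (t : Pol p) (x : ES b w') (h0 : x.1 = 0) :
    (nilF b h w' X0 Y0 X1 Y1 z t x).2.2.2.1 = nilf b z t x.2.2.2.1 := by
  rw [nilF_apply b h w' X0 Y0 X1 Y1 z hz]
  simp only [evP_b0, h0, map_zero, add_zero, nilf, Module.End.mul_apply]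

theorem nilF_s1 (hz : z ≤ h) (t : Pol p) (ht : CF t) (x : ES b w') (h0 : x.1 = 0)
    (hb0 : x.2.2.2.1 = 0) : (nilF b h w' X0 Y0 X1 Y1 z t x).2.1 = 0 := by
  rw [nilF_apply b h w' X0 Y0 X1 Y1 z hz]
  simp only [evP_s1 b w' X0 Y0 X1 Y1 t ht, h0, hb0, map_zero, add_zero]

theorem nilF_b1 (hz : z ≤ h) (t : Pol p) (x : ES b w') (h0 : x.1 = 0)
    (hb0 : x.2.2.2.1 = 0) (h1 : x.2.1 = 0) :
    (nilF b h w' X0 Y0 X1 Y1 z t x).2.2.2.2 = nilf b z t x.2.2.2.2 := by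
  rw [nilF_apply b h w' X0 Y0 X1 Y1 z hz]
  simp only [evP_b1 b w' X0 Y0 X1 Y1 (X1 ∘ₗ Y0) (fun v => rfl) t, h0, hb0, h1, map_zero, add_zero,
    nilf, Module.End.mul_apply]

theorem nilF_s2 (hz : z ≤ h) (t : Pol p) (ht : CF t) (x : ES b w') (h0 : x.1 = 0)
    (hb0 : x.2.2.2.1 = 0) (h1 : x.2.1 = 0) (hb1 : x.2.2.2.2 = 0) :
    nilF b h w' X0 Y0 X1 Y1 z t x = 0 := by
  have e0 := nilF_step0 b h w' X0 Y0 X1 Y1 z hz t ht x
  have e1 := nilF_b0 b h w' X0 Y0 X1 Y1 z hz t x h0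
  have e2 := nilF_s1 b h w' X0 Y0 X1 Y1 z hz t ht x h0 hb0
  have e3 := nilF_b1 b h w' X0 Y0 X1 Y1 z hz t x h0 hb0 h1
  have e4 : (nilF b h w' X0 Y0 X1 Y1 z t x).2.2.1 = 0 := by
    rw [nilF_apply b h w' X0 Y0 X1 Y1 z hz]
    simp only [evP_s2 b w' X0 Y0 X1 Y1 (X1 ∘ₗ Y0) (fun v => rfl) t ht x h0 h1, hb0, hb1, map_zero,
      add_zero]
  rw [hb0, map_zero] at e1
  rw [hb1, map_zero] at e3
  exact Prod.ext e0 (Prod.ext e2 (Prod.ext e4 (Prod.ext e1 e3)))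

/-- phase one: `s0 = 0` -/
theorem nil_phase1 (hz : z ≤ h) : ∀ ts : List (Pol p), (∀ t ∈ ts, CF t) → ∀ x : ES b w', x.1 = 0 →
    ((ts.map (nilF b h w' X0 Y0 X1 Y1 z)).prod x).1 = 0 ∧
    ((ts.map (nilF b h w' X0 Y0 X1 Y1 z)).prod x).2.2.2.1 =
      (ts.map (nilf b z)).prod x.2.2.2.1 := by
  intro ts
  induction ts with
  | nil => intro _ x hx; simpa using hx
  | cons t ts ih =>
    intro hts x hx
    obtain ⟨h1, h2⟩ := ih (fun s hs => hts s (List.mem_cons_of_mem _ hs)) x hx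
    rw [List.map_cons, List.prod_cons, List.map_cons, List.prod_cons, Module.End.mul_apply,
      Module.End.mul_apply]
    refine ⟨nilF_step0 b h w' X0 Y0 X1 Y1 z hz t (hts t (by simp)) _, ?_⟩
    rw [nilF_b0 b h w' X0 Y0 X1 Y1 z hz t _ h1, h2]

/-- phase two: `s0 = b0 = s1 = 0` -/
theorem nil_phase2 (hz : z ≤ h) : ∀ ts : List (Pol p), (∀ t ∈ ts, CF t) → ∀ x : ES b w', x.1 = 0 →
    x.2.2.2.1 = 0 → x.2.1 = 0 →
    ((ts.map (nilF b h w' X0 Y0 X1 Y1 z)).prod x).1 = 0 ∧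
    ((ts.map (nilF b h w' X0 Y0 X1 Y1 z)).prod x).2.2.2.1 = 0 ∧
    ((ts.map (nilF b h w' X0 Y0 X1 Y1 z)).prod x).2.1 = 0 ∧
    ((ts.map (nilF b h w' X0 Y0 X1 Y1 z)).prod x).2.2.2.2 =
      (ts.map (nilf b z)).prod x.2.2.2.2 := by
  intro ts
  induction ts with
  | nil => intro _ x hx hx2 hx3; exact ⟨hx, hx2, hx3, rfl⟩
  | cons t ts ih =>
    intro hts x hx hx2 hx3
    obtain ⟨h1, h2, h3, h4⟩ := ih (fun s hs => hts s (List.mem_cons_of_mem _ hs)) x hx hx2 hx3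
    rw [List.map_cons, List.prod_cons, List.map_cons, List.prod_cons, Module.End.mul_apply,
      Module.End.mul_apply]
    refine ⟨nilF_step0 b h w' X0 Y0 X1 Y1 z hz t (hts t (by simp)) _, ?_,
      nilF_s1 b h w' X0 Y0 X1 Y1 z hz t (hts t (by simp)) _ h1 h2, ?_⟩
    · rw [nilF_b0 b h w' X0 Y0 X1 Y1 z hz t _ h1, h2, map_zero]
    · rw [nilF_b1 b h w' X0 Y0 X1 Y1 z hz t _ h1 h2 h3, h4]

end

/-- Module NIL: the nilpotency field of `Good` for the extension. -/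
theorem ext_nil (b : Blk K p) (h : ℕ) (hb : Good h b) (w' : ℕ) (X0 : (Fin w' → K) →ₗ[K] Wp b)
    (Y0 X1 : Wp b →ₗ[K] Wp b) (Y1 : Wp b →ₗ[K] (Fin w' → K)) (z : ℕ) (ts : List (Pol p))
    (hts : ∀ t ∈ ts, CF t) (hlen : Mb (h + 1 - z) ≤ ts.length) :
    (ts.map (fun t => (1 - prE b w' h z) * evP (opE b w' X0 Y0 X1 Y1) t)).prod = 0 := by
  by_cases hz : z ≤ h
  · have hM : Mb (h + 1 - z) = 2 * Mb (h - z) + 3 := by
      have : h + 1 - z = (h - z) + 1 := by omega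
      rw [this]; rfl
    rw [hM] at hlen
    set M := Mb (h - z) with hMdef
    -- split the list
    obtain ⟨n, hn⟩ : ∃ n, ts.length = n + (1 + (M + (1 + (M + 1)))) :=
      ⟨ts.length - (1 + (M + (1 + (M + 1)))), by omega⟩
    obtain ⟨A, r1, hA, hA1, hA2⟩ : ∃ A r, ts = A ++ r ∧ A.length = n ∧
        r.length = 1 + (M + (1 + (M + 1))) :=
      ⟨ts.take n, ts.drop n, (List.take_append_drop n ts).symm, by simp [hn], by simp [hn]⟩
    obtain ⟨B, r2, hB, hB1, hB2⟩ : ∃ B r, r1 = B ++ r ∧ B.length = 1 ∧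
        r.length = M + (1 + (M + 1)) :=
      ⟨r1.take 1, r1.drop 1, (List.take_append_drop 1 r1).symm, by simp [hA2], by simp [hA2]⟩
    obtain ⟨C, r3, hC, hC1, hC2⟩ : ∃ C r, r2 = C ++ r ∧ C.length = M ∧
        r.length = 1 + (M + 1) :=
      ⟨r2.take M, r2.drop M, (List.take_append_drop M r2).symm, by simp [hB2], by simp [hB2]⟩
    obtain ⟨D, r4, hD, hD1, hD2⟩ : ∃ D r, r3 = D ++ r ∧ D.length = 1 ∧
        r.length = M + 1 :=
      ⟨r3.take 1, r3.drop 1, (List.take_append_drop 1 r3).symm, by simp [hC2], by simp [hC2]⟩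
    obtain ⟨E, r5, hE, hE1, hE2⟩ : ∃ E r, r4 = E ++ r ∧ E.length = M ∧
        r.length = 1 :=
      ⟨r4.take M, r4.drop M, (List.take_append_drop M r4).symm, by simp [hD2], by simp [hD2]⟩
    obtain ⟨tB, rfl⟩ := List.length_eq_one_iff.mp hB1
    obtain ⟨tD, rfl⟩ := List.length_eq_one_iff.mp hD1
    obtain ⟨tF, rfl⟩ := List.length_eq_one_iff.mp hE2
    subst hE hD hC hB hA
    have cA : ∀ t ∈ A, CF t := fun t ht => hts t (by simp [ht])
    have cB : CF tB := hts tB (by simp)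
    have cC : ∀ t ∈ C, CF t := fun t ht => hts t (by simp [ht])
    have cD : CF tD := hts tD (by simp)
    have cE : ∀ t ∈ E, CF t := fun t ht => hts t (by simp [ht])
    have cF : CF tF := hts tF (by simp)
    have eF : (fun t => (1 - prE b w' h z) * evP (opE b w' X0 Y0 X1 Y1) t) =
        nilF b h w' X0 Y0 X1 Y1 z := rfl
    have nE : (E.map (nilf b z)).prod = 0 := hb.nil z E cE (by rw [hE1])
    have nC : (C.map (nilf b z)).prod = 0 := hb.nil z C cC (by rw [hC1])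
    rw [eF]
    refine LinearMap.ext fun x => ?_
    simp only [List.map_append, List.prod_append, List.map_cons, List.map_nil, List.prod_cons,
      List.prod_nil, mul_one, Module.End.mul_apply, LinearMap.zero_apply]
    set x1 := nilF b h w' X0 Y0 X1 Y1 z tF x with hx1
    have f1 : x1.1 = 0 := nilF_step0 b h w' X0 Y0 X1 Y1 z hz tF cF x
    obtain ⟨g1, g2⟩ := nil_phase1 b h w' X0 Y0 X1 Y1 z hz E cE x1 f1
    rw [nE, LinearMap.zero_apply] at g2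
    set x2 := (E.map (nilF b h w' X0 Y0 X1 Y1 z)).prod x1 with hx2
    have k1 := nilF_step0 b h w' X0 Y0 X1 Y1 z hz tD cD x2
    have k2 := nilF_b0 b h w' X0 Y0 X1 Y1 z hz tD x2 g1
    rw [g2, map_zero] at k2
    have k3 := nilF_s1 b h w' X0 Y0 X1 Y1 z hz tD cD x2 g1 g2
    set x3 := nilF b h w' X0 Y0 X1 Y1 z tD x2 with hx3
    obtain ⟨m1, m2, m3, m4⟩ := nil_phase2 b h w' X0 Y0 X1 Y1 z hz C cC x3 k1 k2 k3
    rw [nC, LinearMap.zero_apply] at m4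
    set x4 := (C.map (nilF b h w' X0 Y0 X1 Y1 z)).prod x3 with hx4
    rw [nilF_s2 b h w' X0 Y0 X1 Y1 z hz tB cB x4 m1 m2 m3 m4, map_zero]
  · have h1 : prE b w' h z = 1 := by
      unfold prE
      rw [if_neg hz]
    have h2 : 1 ≤ ts.length := by
      have h3 : h + 1 - z = 0 := by omega
      rw [h3] at hlen
      exact hlen
    cases ts with
    | nil => simp at h2
    | cons t ts => rw [List.map_cons, List.prod_cons, h1, sub_self, zero_mul, zero_mul]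

end Pool.Agent.BinFin
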