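import Pool.Agent.Work.MP_73176e_al.ExtWord
import Pool.Agent.Work.MP_73176e_al.ExtNil
import Pool.Agent.Work.MP_73176e_al.ExtDim
import Pool.Agent.Work.MP_73176e_al.ExtLoc

set_option autoImplicit false

namespace Pool.Agent.BinFin

variable {K : Type} [Field K] {p : ℕ}

/-- the conditions on the data of the extension -/
structure EHyp (b : Blk K p) (h w' : ℕ) (X0 : (Fin w' → K) →ₗ[K] Wp b)
    (Y0 X1 : Wp b →ₗ[K] Wp b) (Y1 : Wp b →ₗ[K] (Fin w' → K)) (Θ : Wp b →ₗ[K] Wp b) : Prop where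
  hΘ : ∀ v, X1 (Y0 v) = Θ v
  hid : ∀ x, Y1 (Θ (X0 x)) = x
  c1 : ∀ z ≤ h, ∀ t ∈ Tz p z, ∀ v, b.pr z (Np b t (X0 v)) = 0
  c2 : ∀ z ≤ h, ∀ t ∈ Tz p z, ∀ v, b.pr z (Np b t (X1 v)) = 0
  c3 : ∀ z ≤ h, ∀ t ∈ Tz p z, ∀ v, Y0 (Mp b t (b.pr z v)) = 0
  c4 : ∀ z ≤ h, ∀ t ∈ Tz p z, ∀ v, Y1 (Mp b t (b.pr z v)) = 0
  c5 : ∀ z ≤ h, ∀ t ∈ Tz p z, ∀ v, Qp b Θ t (b.pr z v) = 0
  c6 : ∀ z ≤ h, ∀ t ∈ Tz p z, ∀ v, b.pr z (Qp b Θ t v) = 0
  c7 : ∀ z ≤ h, ∀ t ∈ Tz p z, ∀ v, Y1 (Rp b Θ t (b.pr z v)) = 0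
  c8 : ∀ z ≤ h, ∀ t ∈ Tz p z, ∀ v, b.pr z (Sp b Θ t (X0 v)) = 0

theorem CF_of_mem_Tz {z : ℕ} {t : Pol p} (ht : t ∈ Tz p z) : CF t := by
  unfold Tz at ht
  split_ifs at ht with h
  · exact h.2 t ht
  · simp at ht

theorem Tz_length (p z : ℕ) : (Tz p z).length ≤ 18 := by
  unfold Tz
  split_ifs with h
  · exact h.1
  · simp

theorem prE_le {b : Blk K p} {w' h z : ℕ} (hz : z ≤ h) (x : ES b w') :
    prE b w' h z x = ((0 : Fin w' → K), (0 : Wp b), (0 : Fin w' → K), b.pr z x.2.2.2.1,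
      b.pr z x.2.2.2.2) := by
  unfold prE
  rw [if_pos hz]
  rfl

theorem prE_gt {b : Blk K p} {w' h z : ℕ} (hz : h < z) : prE b w' h z = 1 := by
  unfold prE
  rw [if_neg (by omega)]

section
variable {b : Blk K p} {h w' : ℕ} {X0 : (Fin w' → K) →ₗ[K] Wp b}
    {Y0 X1 : Wp b →ₗ[K] Wp b} {Y1 : Wp b →ₗ[K] (Fin w' → K)} {Θ : Wp b →ₗ[K] Wp b}

/-- the polynomials of `Tz z` act diagonally on the range of the barrier `z` -/
theorem evP_act (H : EHyp b h w' X0 Y0 X1 Y1 Θ) {z : ℕ} (hz : z ≤ h)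
    {t : Pol p} (ht : t ∈ Tz p z) (y0 y1 : b.B) :
    evP (opE b w' X0 Y0 X1 Y1) t ((0 : Fin w' → K), (0 : Wp b), (0 : Fin w' → K), b.pr z y0, b.pr z y1) =
      ((0 : Fin w' → K), (0 : Wp b), (0 : Fin w' → K), evP b.op t (b.pr z y0),
        evP b.op t (b.pr z y1)) := by
  have hcf := CF_of_mem_Tz ht
  ext1
  · simp [evP_s0 b w' X0 Y0 X1 Y1 t hcf]
  ext1
  · simp [evP_s1 b w' X0 Y0 X1 Y1 t hcf, H.c3 z hz t ht]
  ext1
  · simp [evP_s2 b w' X0 Y0 X1 Y1 Θ H.hΘ t hcf, H.c4 z hz t ht, H.c7 z hz t ht]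
  ext1
  · simp [evP_b0 b w' X0 Y0 X1 Y1 t]
  · simp [evP_b1 b w' X0 Y0 X1 Y1 Θ H.hΘ t, H.c5 z hz t ht]

theorem ext_comm (hb : Good h b) (H : EHyp b h w' X0 Y0 X1 Y1 Θ) (z : ℕ) (t : Pol p)
    (ht : t ∈ Tz p z) :
    evP (opE b w' X0 Y0 X1 Y1) t * prE b w' h z = prE b w' h z * evP (opE b w' X0 Y0 X1 Y1) t := by
  rcases Nat.lt_or_ge h z with hz | hz
  · rw [prE_gt hz, mul_one, one_mul]
  · refine LinearMap.ext fun x => ?_
    rw [Module.End.mul_apply, Module.End.mul_apply, prE_le hz, prE_le hz, evP_act H hz ht]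
    have hc : ∀ y, evP b.op t (b.pr z y) = b.pr z (evP b.op t y) := fun y => by
      have := congrArg (fun g : Module.End K b.B => g y) (hb.comm z t ht)
      simpa using this
    rw [evP_b0, evP_b1 b w' X0 Y0 X1 Y1 Θ H.hΘ t, hc, hc]
    simp only [map_add, H.c1 z hz t ht, H.c2 z hz t ht, H.c6 z hz t ht, H.c8 z hz t ht, add_zero]

/-- lists of polynomials in `Tz z` act diagonally on the range of the barrier `z` -/
theorem prod_act (hb : Good h b) (H : EHyp b h w' X0 Y0 X1 Y1 Θ) {z : ℕ} (hz : z ≤ h)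
    (ts : List (Pol p)) (hts : ∀ t ∈ ts, t ∈ Tz p z) (y0 y1 : b.B) :
    (ts.map (evP (opE b w' X0 Y0 X1 Y1))).prod
      ((0 : Fin w' → K), (0 : Wp b), (0 : Fin w' → K), b.pr z y0, b.pr z y1) =
      ((0 : Fin w' → K), (0 : Wp b), (0 : Fin w' → K), b.pr z ((ts.map (evP b.op)).prod y0),
        b.pr z ((ts.map (evP b.op)).prod y1)) := by
  induction ts with
  | nil => simp
  | cons t ts ih =>
    have ht : t ∈ Tz p z := hts t (by simp)
    have hc : ∀ y, evP b.op t (b.pr z y) = b.pr z (evP b.op t y) := fun y => by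
      have := congrArg (fun g : Module.End K b.B => g y) (hb.comm z t ht)
      simpa using this
    rw [List.map_cons, List.prod_cons, Module.End.mul_apply,
      ih (fun t' ht' => hts t' (by simp [ht'])), evP_act H hz ht, hc, hc]
    simp

theorem ext_locnil (h1 : 1 ≤ h) (hb : Good h b) (H : EHyp b h w' X0 Y0 X1 Y1 Θ) (n : ℕ)
    (hn : OKT (enumT p n)) (ts : List (Pol p)) (hts : ∀ t ∈ ts, t ∈ enumT p n)
    (hlen : Mb (2 ^ (n + 1)) ≤ ts.length) :
    (ts.map (evP (opE b w' X0 Y0 X1 Y1))).prod = 0 := by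
  obtain ⟨z, hz, hgap, hval⟩ := exists_barrier n (h + 1) (by omega)
  have hzh : z ≤ h := by omega
  have hne : ts ≠ [] := by
    rintro rfl
    have := Mb_pos (2 ^ (n + 1))
    simp at hlen
    omega
  have hcf : ∀ t ∈ ts, CF t := fun t ht => hn.2 t (hts t ht)
  have hnil := ext_nil b h hb w' X0 Y0 X1 Y1 z ts hcf
    (le_trans (Mb_mono hgap) hlen)
  have hidem : prE b w' h z * prE b w' h z = prE b w' h z := by
    refine LinearMap.ext fun x => ?_
    have hpp : ∀ y, b.pr z (b.pr z y) = b.pr z y := fun y => by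
      have := congrArg (fun g : Module.End K b.B => g y) (hb.prmul z z)
      simpa using this
    rw [Module.End.mul_apply, prE_le hzh, prE_le hzh]
    simp only [hpp]
  rcases hval with rfl | hval
  · -- the barrier at 0
    refine locnil_of_split (evP (opE b w' X0 Y0 X1 Y1)) (prE b w' h 0) hidem (enumT p n)
      ?_ ts hts hne hnil ?_
    · intro t _
      have h0 : prE b w' h 0 = 0 := by
        refine LinearMap.ext fun x => ?_
        rw [prE_le (Nat.zero_le h), hb.pr0]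
        rfl
      rw [h0, mul_zero, zero_mul]
    · have h0 : prE b w' h 0 = 0 := by
        refine LinearMap.ext fun x => ?_
        rw [prE_le (Nat.zero_le h), hb.pr0]
        rfl
      rw [h0, mul_zero]
  · have hT : Tz p z = enumT p n := by
      unfold Tz
      rw [hval, if_pos hn]
    refine locnil_of_split (evP (opE b w' X0 Y0 X1 Y1)) (prE b w' h z) hidem (enumT p n)
      ?_ ts hts hne hnil ?_
    · intro t ht
      exact ext_comm hb H z t (by rw [hT]; exact ht)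
    · refine LinearMap.ext fun x => ?_
      rw [Module.End.mul_apply, prE_le hzh, prod_act hb H hzh ts (by rw [hT]; exact hts),
        hb.locnil n hn ts hts hlen]
      simp

theorem ext_faae (hid : ∀ x, Y1 (X1 (Y0 (X0 x))) = x) (x : Fin w' → K) :
    (opE b w' X0 Y0 X1 Y1 .a (opE b w' X0 Y0 X1 Y1 .a (x, 0))).2.2.1 = x := by
  simp [opE_apply, thr, exi, hid]

theorem ext_Uaae (i : Fin p) (x : Fin w' → K) :
    opE b w' X0 Y0 X1 Y1 (.U i) (opE b w' X0 Y0 X1 Y1 .a (opE b w' X0 Y0 X1 Y1 .a (x, 0))) = 0 := by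
  simp [opE_apply, thr, exi, ent]

theorem ext_faaD (i : Fin p) (x : ES b w') :
    (opE b w' X0 Y0 X1 Y1 .a (opE b w' X0 Y0 X1 Y1 .a
      (opE b w' X0 Y0 X1 Y1 (.D i) x))).2.2.1 = 0 := by
  simp [opE_apply, thr, exi, ent]

theorem ext_fpr {z : ℕ} (hz : z < h + 1) (x : ES b w') : (prE b w' h z x).2.2.1 = 0 := by
  rw [prE_le (by omega)]

theorem ext_prae {z : ℕ} (hz : z < h + 1) (x : Fin w' → K) :
    prE b w' h z (opE b w' X0 Y0 X1 Y1 .a (x, 0)) = 0 := by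
  rw [prE_le (by omega)]
  simp [opE_apply, exi, ent]

theorem ext_pr0 (hb : Good h b) : prE b w' h 0 = 0 := by
  refine LinearMap.ext fun x => ?_
  rw [prE_le (Nat.zero_le h), hb.pr0]
  rfl

theorem ext_prmul (hb : Good h b) (z z' : ℕ) :
    prE b w' h z * prE b w' h z' = prE b w' h (min z z') := by
  rcases Nat.lt_or_ge h z with hz | hz
  · rw [prE_gt hz, one_mul]
    rcases Nat.lt_or_ge h z' with hz' | hz'
    · rw [prE_gt hz', prE_gt (by omega)]
    · rw [min_eq_right (by omega)]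
  · rcases Nat.lt_or_ge h z' with hz' | hz'
    · rw [prE_gt hz', mul_one, min_eq_left (by omega)]
    · refine LinearMap.ext fun x => ?_
      have hpp : ∀ y, b.pr z (b.pr z' y) = b.pr (min z z') y := fun y => by
        have := congrArg (fun g : Module.End K b.B => g y) (hb.prmul z z')
        simpa using this
      rw [Module.End.mul_apply, prE_le hz, prE_le hz', prE_le (le_trans (min_le_left z z') hz)]
      simp only [hpp]

theorem ext_grow (hb : Good h b) (l : Ltr p) (z : ℕ) (x : ES b w') :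
    prE b w' h (z + 1) (opE b w' X0 Y0 X1 Y1 l (prE b w' h z x)) =
      opE b w' X0 Y0 X1 Y1 l (prE b w' h z x) := by
  rcases Nat.lt_or_ge h (z + 1) with hz | hz
  · rw [prE_gt hz]; rfl
  · have hzh : z ≤ h := by omega
    rw [prE_le hzh, prE_le hz]
    have hf : ∀ y, exi b l (b.pr z y) = 0 := fun y => by
      cases l <;> simp [exi, hb.fpr z (by omega)]
    simp [opE_apply, hf, hb.grow]

theorem ext_rel (h1 : 1 ≤ h) (hb : Good h b) (x : ES b w') :
    opE b w' X0 Y0 X1 Y1 .a (x - prE b w' h 1 x) =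
      ∑ i, opE b w' X0 Y0 X1 Y1 (.U i) (opE b w' X0 Y0 X1 Y1 .a (opE b w' X0 Y0 X1 Y1 .a
        (opE b w' X0 Y0 X1 Y1 (.D i) (x - prE b w' h 1 x)))) := by
  have hs : ∀ v : Wp b, ∑ i, LinearMap.single K (fun _ : Fin p => Fin b.w → K) i (v i) = v := by
    intro v
    funext j
    simp [Finset.sum_apply, Pi.single_apply]
  have e1 : ∀ (i : Fin p) (y : ES b w'),
      opE b w' X0 Y0 X1 Y1 (.U i) (opE b w' X0 Y0 X1 Y1 .a (opE b w' X0 Y0 X1 Y1 .a
        (opE b w' X0 Y0 X1 Y1 (.D i) y))) =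
      ((0 : Fin w' → K),
        Y0 (LinearMap.single K (fun _ : Fin p => Fin b.w → K) i (X0 y.1 i)),
        Y1 (LinearMap.single K (fun _ : Fin p => Fin b.w → K) i (X1 y.2.1 i)),
        b.op (.U i) (b.op .a (b.op .a (b.op (.D i) y.2.2.2.1))),
        b.op (.U i) (b.op .a (b.op .a (b.op (.D i) y.2.2.2.2)))) := by
    intro i y
    simp [opE_apply, thr, exi, ent, hb.faae, hb.Uaae, hb.faaD]
  simp only [e1]
  rw [prE_le h1]
  ext1
  · simp [opE_apply, Prod.fst_sum]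
  ext1
  · simp only [opE_apply, Prod.fst_sum, Prod.snd_sum, ← map_sum, hs]
    simp [thr, exi]
  ext1
  · simp only [opE_apply, Prod.fst_sum, Prod.snd_sum, ← map_sum, hs]
    simp [thr, exi]
  ext1
  · simp only [opE_apply, Prod.fst_sum, Prod.snd_sum]
    simpa [ent] using hb.rel x.2.2.2.1
  · simp only [opE_apply, Prod.snd_sum]
    simpa [ent] using hb.rel x.2.2.2.2

theorem EHyp.hid' (H : EHyp b h w' X0 Y0 X1 Y1 Θ) (x : Fin w' → K) :
    Y1 (X1 (Y0 (X0 x))) = x := by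
  rw [H.hΘ, H.hid]

theorem ext_good {b : Blk K 4000} {h : ℕ} {X0 : (Fin (2000 * b.w) → K) →ₗ[K] Wp b}
    {Y0 X1 : Wp b →ₗ[K] Wp b} {Y1 : Wp b →ₗ[K] (Fin (2000 * b.w) → K)} {Θ : Wp b →ₗ[K] Wp b}
    (h1 : 1 ≤ h) (hb : Good h b) (H : EHyp b h (2000 * b.w) X0 Y0 X1 Y1 Θ) :
    Good (h + 1) (ext b h (2000 * b.w) X0 Y0 X1 Y1) where
  wpos := by
    have := hb.wpos
    show 1 ≤ 2000 * b.w
    omega
  faae := ext_faae H.hid'
  Uaae := ext_Uaae
  faaD := ext_faaD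
  fpr := fun z hz x => ext_fpr hz x
  prae := fun z hz x => ext_prae hz x
  pr0 := ext_pr0 hb
  prtop := fun z hz => prE_gt (show h < z by omega)
  prmul := ext_prmul hb
  comm := ext_comm hb H
  rel := ext_rel h1 hb
  grow := ext_grow hb
  nil := ext_nil b h hb _ X0 Y0 X1 Y1
  dim := ext_dim b h hb
  locnil := ext_locnil h1 hb H

end

end Pool.Agent.BinFin
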