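import Pool.Agent.Work.MP_73176e_al.ExtDef

set_option autoImplicit false

namespace Pool.Agent.BinFin

variable {K : Type} [Field K] {p : ℕ}

theorem evW_nil {R : Type} [Ring R] (ev : Ltr p → R) : evW ev [] = 1 := rfl

theorem evW_cons {R : Type} [Ring R] (ev : Ltr p → R) (l : Ltr p) (w : Wd p) :
    evW ev (l :: w) = ev l * evW ev w := by
  simp [evW]

theorem evP_nil {R : Type} [Ring R] (ev : Ltr p → R) : evP ev [] = 0 := rfl

theorem evP_cons {R : Type} [Ring R] (ev : Ltr p → R) (w : Wd p) (t : Pol p) :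
    evP ev (w :: t) = evW ev w + evP ev t := by
  simp [evP]

section
variable (b : Blk K p) (w' : ℕ) (X0 : (Fin w' → K) →ₗ[K] Wp b)
    (Y0 X1 : Wp b →ₗ[K] Wp b) (Y1 : Wp b →ₗ[K] (Fin w' → K)) (Θ : Wp b →ₗ[K] Wp b)

theorem opE_apply (l : Ltr p) (x : ES b w') :
    opE b w' X0 Y0 X1 Y1 l x = ((0 : Fin w' → K),
     Y0 (thr b l (X0 x.1)) + Y0 (exi b l x.2.2.2.1),
     Y1 (thr b l (X1 x.2.1)) + Y1 (exi b l x.2.2.2.2),
     b.op l x.2.2.2.1 + ent b l (X0 x.1),
     b.op l x.2.2.2.2 + ent b l (X1 x.2.1)) := rfl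

/-- `s0` after a word -/
theorem evW_s0 (w : Wd p) (x : ES b w') :
    (evW (opE b w' X0 Y0 X1 Y1) w x).1 = (match w with | [] => x.1 | _ :: _ => 0) := by
  cases w with
  | nil => simp [evW_nil]
  | cons l w => simp [evW_cons, opE_apply]

theorem evW_b0 (w : Wd p) (x : ES b w') :
    (evW (opE b w' X0 Y0 X1 Y1) w x).2.2.2.1 = evW b.op w x.2.2.2.1 + Nw b w (X0 x.1) := by
  induction w with
  | nil => simp [evW_nil, Nw]
  | cons l w ih =>
    rw [evW_cons, evW_cons, Module.End.mul_apply, opE_apply]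
    simp only [ih, evW_s0, Nw, LinearMap.add_apply, LinearMap.comp_apply, Module.End.mul_apply,
      map_add]
    cases w with
    | nil => simp <;> abel
    | cons l' w => simp <;> abel

theorem evW_s1 (w : Wd p) (x : ES b w') :
    (evW (opE b w' X0 Y0 X1 Y1) w x).2.1 =
      (match w with | [] => x.2.1 | _ :: _ => 0) + Y0 (Mw b w x.2.2.2.1 + Pw b w (X0 x.1)) := by
  cases w with
  | nil => simp [evW_nil, Mw, Pw]
  | cons l w =>
    rw [evW_cons, Module.End.mul_apply, opE_apply]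
    simp only [evW_b0, evW_s0, Mw, Pw, LinearMap.add_apply, LinearMap.comp_apply, map_add]
    cases w with
    | nil => simp <;> abel
    | cons l' w => simp <;> abel

theorem evW_b1 (hΘ : ∀ v, X1 (Y0 v) = Θ v) (w : Wd p) (x : ES b w') :
    (evW (opE b w' X0 Y0 X1 Y1) w x).2.2.2.2 =
      evW b.op w x.2.2.2.2 + Nw b w (X1 x.2.1) + Qw b Θ w x.2.2.2.1 + Sw b Θ w (X0 x.1) := by
  induction w with
  | nil => simp [evW_nil, Nw, Qw, Sw]
  | cons l w ih =>
    rw [evW_cons, evW_cons, Module.End.mul_apply, opE_apply]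
    simp only [ih, evW_s1, Nw, Qw, Sw, LinearMap.add_apply, LinearMap.comp_apply,
      Module.End.mul_apply, map_add, hΘ]
    cases w with
    | nil => simp <;> abel
    | cons l' w => simp <;> abel

theorem evW_s2 (hΘ : ∀ v, X1 (Y0 v) = Θ v) (w : Wd p) (x : ES b w') (h0 : x.1 = 0)
    (h1 : x.2.1 = 0) :
    (evW (opE b w' X0 Y0 X1 Y1) w x).2.2.1 =
      (match w with | [] => x.2.2.1 | _ :: _ => 0) +
        Y1 (Mw b w x.2.2.2.2 + Rw b Θ w x.2.2.2.1) := by
  cases w with
  | nil => simp [evW_nil, Mw, Rw]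
  | cons l w =>
    rw [evW_cons, Module.End.mul_apply, opE_apply]
    simp only [evW_b1 b w' X0 Y0 X1 Y1 Θ hΘ, evW_s1, Mw, Rw, LinearMap.add_apply,
      LinearMap.comp_apply, map_add, hΘ, h0, h1, map_zero, add_zero]
    cases w with
    | nil => simp <;> abel
    | cons l' w => simp <;> abel

theorem evP_s0 (t : Pol p) (ht : CF t) (x : ES b w') :
    (evP (opE b w' X0 Y0 X1 Y1) t x).1 = 0 := by
  induction t with
  | nil => simp [evP_nil]
  | cons w t ih =>
    have hw : w ≠ [] := ht w (by simp)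
    have ht' : CF t := fun v hv => ht v (by simp [hv])
    rw [evP_cons, LinearMap.add_apply, Prod.fst_add, ih ht', evW_s0]
    cases w with
    | nil => exact absurd rfl hw
    | cons l w => simp

theorem evP_b0 (t : Pol p) (x : ES b w') :
    (evP (opE b w' X0 Y0 X1 Y1) t x).2.2.2.1 = evP b.op t x.2.2.2.1 + Np b t (X0 x.1) := by
  induction t with
  | nil => simp [evP_nil, Np]
  | cons w t ih =>
    have e1 : Np b (w :: t) = Nw b w + Np b t := by simp [Np]
    rw [evP_cons, evP_cons, e1]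
    simp only [LinearMap.add_apply, Prod.snd_add, Prod.fst_add, ih, evW_b0]
    abel

theorem evP_s1 (t : Pol p) (ht : CF t) (x : ES b w') :
    (evP (opE b w' X0 Y0 X1 Y1) t x).2.1 = Y0 (Mp b t x.2.2.2.1 + Pp b t (X0 x.1)) := by
  induction t with
  | nil => simp [evP_nil, Mp, Pp]
  | cons w t ih =>
    have hw : w ≠ [] := ht w (by simp)
    have ht' : CF t := fun v hv => ht v (by simp [hv])
    have e1 : Mp b (w :: t) = Mw b w + Mp b t := by simp [Mp]
    have e2 : Pp b (w :: t) = Pw b w + Pp b t := by simp [Pp]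
    rw [evP_cons, e1, e2]
    simp only [LinearMap.add_apply, Prod.snd_add, Prod.fst_add, ih ht', evW_s1, map_add]
    cases w with
    | nil => exact absurd rfl hw
    | cons l w => simp <;> abel

theorem evP_b1 (hΘ : ∀ v, X1 (Y0 v) = Θ v) (t : Pol p) (x : ES b w') :
    (evP (opE b w' X0 Y0 X1 Y1) t x).2.2.2.2 =
      evP b.op t x.2.2.2.2 + Np b t (X1 x.2.1) + Qp b Θ t x.2.2.2.1 + Sp b Θ t (X0 x.1) := by
  induction t with
  | nil => simp [evP_nil, Np, Qp, Sp]
  | cons w t ih =>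
    have e1 : Np b (w :: t) = Nw b w + Np b t := by simp [Np]
    have e2 : Qp b Θ (w :: t) = Qw b Θ w + Qp b Θ t := by simp [Qp]
    have e3 : Sp b Θ (w :: t) = Sw b Θ w + Sp b Θ t := by simp [Sp]
    rw [evP_cons, evP_cons, e1, e2, e3]
    simp only [LinearMap.add_apply, Prod.snd_add, ih, evW_b1 b w' X0 Y0 X1 Y1 Θ hΘ]
    abel

theorem evP_s2 (hΘ : ∀ v, X1 (Y0 v) = Θ v) (t : Pol p) (ht : CF t) (x : ES b w') (h0 : x.1 = 0)
    (h1 : x.2.1 = 0) :
    (evP (opE b w' X0 Y0 X1 Y1) t x).2.2.1 = Y1 (Mp b t x.2.2.2.2 + Rp b Θ t x.2.2.2.1) := by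
  induction t with
  | nil => simp [evP_nil, Mp, Rp]
  | cons w t ih =>
    have hw : w ≠ [] := ht w (by simp)
    have ht' : CF t := fun v hv => ht v (by simp [hv])
    have e1 : Mp b (w :: t) = Mw b w + Mp b t := by simp [Mp]
    have e2 : Rp b Θ (w :: t) = Rw b Θ w + Rp b Θ t := by simp [Rp]
    rw [evP_cons, e1, e2]
    simp only [LinearMap.add_apply, Prod.snd_add, Prod.fst_add, ih ht',
      evW_s2 b w' X0 Y0 X1 Y1 Θ hΘ w x h0 h1, map_add]
    cases w with
    | nil => exact absurd rfl hw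
    | cons l w => simp <;> abel

end

end Pool.Agent.BinFin
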